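import Mathlib
import Pool.Prelude.Def_F_d420a142

/-!
MP_992d6e_an, cubic lower bound: common definitions.
-/

namespace PC992

open Filter Topology

noncomputable section

/-- Euclidean three-space. -/
abbrev E := EuclideanSpace ℝ (Fin 3)

/-- The set of nondegenerate critical points of `V`. -/
def NDC (V : E → ℝ) : Set E :=
  {x | ContDiffAt ℝ 2 V x ∧ fderiv ℝ V x = 0 ∧
    ∀ v, fderiv ℝ (fderiv ℝ V) x v = 0 → v = 0}

/-- Continuous convergence of class `C^2` of the family `F` to `V` at `x0` along `l`. -/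
def TC2 {ι : Type*} (l : Filter ι) (F : ι → E → ℝ) (V : E → ℝ) (x0 : E) : Prop :=
  ContDiffAt ℝ 2 V x0 ∧
  (∀ᶠ p : ι × E in l ×ˢ 𝓝 x0, ContDiffAt ℝ 2 (F p.1) p.2) ∧
  Tendsto (fun p : ι × E => fderiv ℝ (F p.1) p.2) (l ×ˢ 𝓝 x0) (𝓝 (fderiv ℝ V x0)) ∧
  Tendsto (fun p : ι × E => fderiv ℝ (fderiv ℝ (F p.1)) p.2) (l ×ˢ 𝓝 x0)
    (𝓝 (fderiv ℝ (fderiv ℝ V) x0))

/-- Legendre type polynomials (`(-1)^k k!` times the Legendre polynomial). -/
def P : ℕ → Polynomial ℝ
  | 0 => 1
  | k + 1 => (1 - Polynomial.X ^ 2) * (P k).derivative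
      - Polynomial.C ((k : ℝ) + 1) * Polynomial.X * P k

/-- The axial multipole of order `k` with axis `e`, i.e. the `k`-th derivative of `1/‖x‖` in the
direction `e`. -/
def Ek (k : ℕ) (e : E) (x : E) : ℝ :=
  (‖x‖ ^ (k + 1))⁻¹ * (P k).eval (inner ℝ e x / ‖x‖)

/-- The two axes. -/
def ez : E := EuclideanSpace.single 2 1
def ex : E := EuclideanSpace.single 0 1

/-- axis used at level `k` -/
def ax (k : ℕ) : E := if Even k then ez else ex

/-- number of critical points used at level `k` -/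
def K (k : ℕ) : ℕ := 4 * k / 9 - 1

end

end PC992
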