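import Mathlib
import Pool.Agent.Work.MP_992d6e_an.Defs

/-!
MP_992d6e_an, cubic lower bound: first and second derivatives of axial multipoles.
-/

namespace PC992

open Filter Topology Polynomial

noncomputable section

/-- functions `r^{-m} q(<e,x>/r)` -/
def Phi (m : ℕ) (q : Polynomial ℝ) (e x : E) : ℝ :=
  (‖x‖ ^ m)⁻¹ * q.eval (inner ℝ e x / ‖x‖)

/-- the coefficient polynomial -/
def sP (m : ℕ) (q : Polynomial ℝ) : Polynomial ℝ := - C (m : ℝ) * q - X * derivative q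

lemma hasFDerivAt_norm' {x : E} (hx : x ≠ 0) :
    HasFDerivAt (fun y : E => ‖y‖) (‖x‖⁻¹ • innerSL ℝ x) x := by
  have h1 : HasFDerivAt (fun y : E => ‖y‖ ^ 2) (2 • (innerSL ℝ x)) x :=
    (hasStrictFDerivAt_norm_sq x).hasFDerivAt
  have hx' : ‖x‖ ^ 2 ≠ 0 := pow_ne_zero 2 (norm_ne_zero_iff.mpr hx)
  have h2 := h1.sqrt hx'
  have h3 : (fun y : E => √(‖y‖ ^ 2)) = fun y : E => ‖y‖ := by
    funext y
    exact Real.sqrt_sq (norm_nonneg y)
  rw [h3] at h2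
  refine h2.congr_fderiv ?_
  rw [Real.sqrt_sq (norm_nonneg x)]
  have hr : ‖x‖ ≠ 0 := norm_ne_zero_iff.mpr hx
  ext w
  simp
  field_simp

lemma Phi_hasFDerivAt (m : ℕ) (q : Polynomial ℝ) (e : E) {x : E} (hx : x ≠ 0) :
    HasFDerivAt (Phi m q e)
      (Phi (m + 2) (sP m q) e x • innerSL ℝ x + Phi (m + 1) (derivative q) e x • innerSL ℝ e) x := by
  have hr : ‖x‖ ≠ 0 := norm_ne_zero_iff.mpr hx
  have hn := hasFDerivAt_norm' hx
  have hin : HasFDerivAt (fun y : E => inner ℝ e y) (innerSL ℝ e) x :=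
    (innerSL ℝ e).hasFDerivAt
  have hu : HasFDerivAt (fun y : E => inner ℝ e y / ‖y‖)
      ((‖x‖⁻¹) • innerSL ℝ e - ((inner ℝ e x) * (‖x‖ ^ 3)⁻¹) • innerSL ℝ x) x := by
    have hi : HasFDerivAt (fun y : E => ‖y‖⁻¹) ((-(‖x‖ ^ 2)⁻¹) • (‖x‖⁻¹ • innerSL ℝ x)) x :=
      HasDerivAt.comp_hasFDerivAt (h₂ := fun t : ℝ => t⁻¹) x (hasDerivAt_inv hr) hn
    have := hin.fun_mul hi
    simp only [div_eq_mul_inv]
    refine this.congr_fderiv ?_
    ext w
    simp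
    field_simp
    ring
  have hq : HasFDerivAt (fun y : E => q.eval (inner ℝ e y / ‖y‖))
      ((derivative q).eval (inner ℝ e x / ‖x‖) •
        ((‖x‖⁻¹) • innerSL ℝ e - ((inner ℝ e x) * (‖x‖ ^ 3)⁻¹) • innerSL ℝ x)) x :=
    HasDerivAt.comp_hasFDerivAt (h₂ := fun t : ℝ => q.eval t) x (q.hasDerivAt _) hu
  have hp : HasFDerivAt (fun y : E => (‖y‖ ^ m)⁻¹)
      ((-(m : ℝ) * (‖x‖ ^ (m + 2))⁻¹) • innerSL ℝ x) x := by
    have h1 : HasDerivAt (fun t : ℝ => (t ^ m)⁻¹) (-(m * ‖x‖ ^ (m - 1)) / (‖x‖ ^ m) ^ 2) ‖x‖ := by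
      exact (hasDerivAt_pow m ‖x‖).fun_inv (pow_ne_zero m hr)
    have h2 : HasFDerivAt (fun y : E => (‖y‖ ^ m)⁻¹)
        ((-(m * ‖x‖ ^ (m - 1)) / (‖x‖ ^ m) ^ 2) • (‖x‖⁻¹ • innerSL ℝ x)) x :=
      HasDerivAt.comp_hasFDerivAt (h₂ := fun t : ℝ => (t ^ m)⁻¹) x h1 hn
    refine h2.congr_fderiv ?_
    rw [smul_smul]
    congr 1
    rcases m with _ | m
    · simp
    · simp
      field_simp
      ring
  have := hp.fun_mul hq
  refine this.congr_fderiv ?_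
  ext w
  simp [Phi, sP]
  field_simp
  ring

lemma Phi_contDiffAt (m : ℕ) (q : Polynomial ℝ) (e : E) {x : E} (hx : x ≠ 0) (n : WithTop ℕ∞) :
    ContDiffAt ℝ n (Phi m q e) x := by
  have hr : ‖x‖ ≠ 0 := norm_ne_zero_iff.mpr hx
  have h1 : ContDiffAt ℝ n (fun y : E => ‖y‖) x := contDiffAt_norm ℝ hx
  have h2 : ContDiffAt ℝ n (fun y : E => inner ℝ e y) x :=
    (innerSL ℝ e).contDiff.contDiffAt
  have h3 : ContDiff ℝ n (fun t : ℝ => q.eval t) := by
    have := q.contDiff_aeval (𝕜 := ℝ) (n := n)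
    simpa using this
  unfold Phi
  exact ((h1.pow m).inv (pow_ne_zero m hr)).mul (h3.contDiffAt.comp x (h2.div h1 hr))

lemma Ek_eq_Phi (k : ℕ) (e : E) : Ek k e = Phi (k + 1) (P k) e := rfl

theorem Ek_contDiffAt (k : ℕ) (e : E) {x : E} (hx : x ≠ 0) (n : WithTop ℕ∞) :
    ContDiffAt ℝ n (Ek k e) x := Phi_contDiffAt _ _ e hx n

theorem Ek_zero (e x : E) : Ek 0 e x = ‖x‖⁻¹ := by
  simp [Ek, P]

theorem Ek_dir (k : ℕ) {e : E} (he : ‖e‖ = 1) {x : E} (hx : x ≠ 0) :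
    fderiv ℝ (Ek k e) x e = Ek (k + 1) e x := by
  have hr : ‖x‖ ≠ 0 := norm_ne_zero_iff.mpr hx
  rw [Ek_eq_Phi, (Phi_hasFDerivAt (k + 1) (P k) e hx).fderiv]
  have hee : inner ℝ e e = (1 : ℝ) := by rw [real_inner_self_eq_norm_sq, he]; norm_num
  simp only [Phi, sP, Ek, P, _root_.add_apply, _root_.smul_apply,
    innerSL_apply_apply, hee, real_inner_comm e x, smul_eq_mul]
  simp
  field_simp
  ring

/-- second derivative of `Phi` -/
lemma Phi_fderiv2 (m : ℕ) (q : Polynomial ℝ) (e : E) {x : E} (hx : x ≠ 0) (v w : E) :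
    fderiv ℝ (fderiv ℝ (Phi m q e)) x v w =
      (Phi (m + 4) (sP (m + 2) (sP m q)) e x * inner ℝ x v +
        Phi (m + 3) (derivative (sP m q)) e x * inner ℝ e v) * inner ℝ x w
      + Phi (m + 2) (sP m q) e x * inner ℝ v w
      + (Phi (m + 3) (sP (m + 1) (derivative q)) e x * inner ℝ x v +
        Phi (m + 2) (derivative (derivative q)) e x * inner ℝ e v) * inner ℝ e w := by
  have hev : fderiv ℝ (Phi m q e) =ᶠ[𝓝 x] fun y =>
      Phi (m + 2) (sP m q) e y • innerSL ℝ y + Phi (m + 1) (derivative q) e y • innerSL ℝ e := by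
    filter_upwards [isOpen_ne.mem_nhds hx] with y hy
    exact (Phi_hasFDerivAt m q e hy).fderiv
  rw [hev.fderiv_eq]
  have h1 := Phi_hasFDerivAt (m + 2) (sP m q) e hx
  have h2 := Phi_hasFDerivAt (m + 1) (derivative q) e hx
  have h3 : HasFDerivAt (fun y : E => innerSL ℝ y) (innerSL ℝ : E →L[ℝ] E →L[ℝ] ℝ) x :=
    (innerSL ℝ : E →L[ℝ] E →L[ℝ] ℝ).hasFDerivAt
  have h4 := (h1.fun_smul h3).fun_add (h2.smul_const (innerSL ℝ e))
  rw [h4.fderiv]
  have h5 : ((innerSL ℝ : E →L[ℝ] E →L[ℝ] ℝ) v) w = inner ℝ v w := rfl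
  simp
  rw [h5]
  ring

/-- second derivative of a multipole at a point whose direction is critical -/
theorem Phi_fderiv2_crit (m : ℕ) (q : Polynomial ℝ) (e : E) {ω : E} (hω : ‖ω‖ = 1) {t : ℝ}
    (ht : 0 < t) (hq : (derivative q).eval (inner ℝ e ω) = 0) (v w : E) :
    fderiv ℝ (fderiv ℝ (Phi m q e)) (t • ω) v w =
      (t ^ (m + 2))⁻¹ * (-(m : ℝ) * q.eval (inner ℝ e ω) *
          (inner ℝ v w - (m + 2) * inner ℝ ω v * inner ℝ ω w)
        + (derivative (derivative q)).eval (inner ℝ e ω) *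
          (inner ℝ e v - inner ℝ e ω * inner ℝ ω v) *
          (inner ℝ e w - inner ℝ e ω * inner ℝ ω w)) := by
  have hω0 : ω ≠ 0 := by
    rintro rfl
    simp at hω
  have hx : t • ω ≠ 0 := smul_ne_zero ht.ne' hω0
  rw [Phi_fderiv2 m q e hx]
  have hn : ‖t • ω‖ = t := by rw [norm_smul, hω, Real.norm_of_nonneg ht.le, mul_one]
  have hu : inner ℝ e (t • ω) / t = inner ℝ e ω := by
    rw [real_inner_smul_right]
    field_simp
  simp only [Phi, hn, hu, sP]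
  simp [hq, real_inner_smul_left]
  field_simp
  ring

/-- first derivative at a point whose direction is critical -/
theorem Phi_fderiv_crit (m : ℕ) (q : Polynomial ℝ) (e : E) {ω : E} (hω : ‖ω‖ = 1) {t : ℝ}
    (ht : 0 < t) (hq : (derivative q).eval (inner ℝ e ω) = 0) :
    fderiv ℝ (Phi m q e) (t • ω) =
      ((t ^ (m + 1))⁻¹ * (-(m : ℝ) * q.eval (inner ℝ e ω))) • innerSL ℝ ω := by
  have hω0 : ω ≠ 0 := by
    rintro rfl
    simp at hω
  have hx : t • ω ≠ 0 := smul_ne_zero ht.ne' hω0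
  rw [(Phi_hasFDerivAt m q e hx).fderiv]
  have hn : ‖t • ω‖ = t := by rw [norm_smul, hω, Real.norm_of_nonneg ht.le, mul_one]
  have hu : inner ℝ e (t • ω) / t = inner ℝ e ω := by
    rw [real_inner_smul_right]
    field_simp
  ext w
  simp only [Phi, hn, hu, sP]
  simp [hq]
  field_simp
  ring

/-- homogeneity -/
theorem Ek_smul (k : ℕ) (e x : E) {t : ℝ} (ht : 0 < t) :
    Ek k e (t • x) = (t ^ (k + 1))⁻¹ * Ek k e x := by
  by_cases hx : x = 0
  · subst hx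
    simp [Ek]
  · have hr : ‖x‖ ≠ 0 := norm_ne_zero_iff.mpr hx
    have hn : ‖t • x‖ = t * ‖x‖ := by rw [norm_smul, Real.norm_of_nonneg ht.le]
    have hu : inner ℝ e (t • x) / (t * ‖x‖) = inner ℝ e x / ‖x‖ := by
      rw [real_inner_smul_right]
      field_simp
    simp only [Ek, hn, hu]
    rw [mul_pow, mul_inv]
    ring

end

end PC992
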