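import Mathlib
import Pool.Agent.Work.MP_992d6e_an.Defs

/-!
MP_992d6e_an, cubic lower bound, module Sturm: the Legendre differential equation for `P k`,
Sturm comparison and the resulting critical points of `P k` in `(-7/10, 7/10)`.
-/

namespace PC992
open Filter Topology Polynomial MeasureTheory

theorem P_succ (k : ℕ) : P (k + 1) = (1 - X ^ 2) * derivative (P k)
      - C ((k : ℝ) + 1) * X * P k := rfl

/-- The derivative of `P (k+1)`, given the differential equation of `P k`. -/
theorem P_succ_deriv_aux (k : ℕ) (h : (1 - X ^ 2) * derivative (derivative (P k))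
    - 2 * X * derivative (P k) + C ((k : ℝ) * (k + 1)) * P k = 0) :
    derivative (P (k + 1)) =
    - C ((k : ℝ) + 1) * (C ((k : ℝ) + 1) * P k + X * derivative (P k)) := by
  rw [P_succ]
  simp only [derivative_sub, derivative_mul, derivative_one, derivative_X_pow, derivative_C,
    derivative_X, map_add, map_mul, map_one] at h ⊢
  simp only [Nat.cast_ofNat, map_ofNat, Nat.add_one_sub_one, pow_one] at h ⊢
  linear_combination h

theorem P_ode (k : ℕ) : (1 - X ^ 2) * derivative (derivative (P k)) - 2 * X * derivative (P k)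
    + C ((k : ℝ) * (k + 1)) * P k = 0 := by
  induction k with
  | zero => simp [P]
  | succ k ih =>
    have h1 := P_succ_deriv_aux k ih
    have h2 : derivative (derivative (P (k + 1))) =
        - C ((k : ℝ) + 1) * ((C ((k : ℝ) + 1) + 1) * derivative (P k)
          + X * derivative (derivative (P k))) := by
      rw [h1]
      simp only [derivative_mul, derivative_neg, derivative_C, derivative_X,
        map_add, map_one, derivative_one]
      ring
    rw [h2, h1, P_succ]
    push_cast
    simp only [map_add, map_mul, map_one] at ih ⊢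
    linear_combination (-(C (k : ℝ) + 1) * X) * ih

theorem P_succ_deriv (k : ℕ) : derivative (P (k + 1)) =
    - C ((k : ℝ) + 1) * (C ((k : ℝ) + 1) * P k + X * derivative (P k)) :=
  P_succ_deriv_aux k (P_ode k)

theorem P_eval_one_ne (k : ℕ) : (P k).eval 1 ≠ 0 := by
  induction k with
  | zero => simp [P]
  | succ k ih =>
    rw [P_succ]
    have : ((k : ℝ) + 1) ≠ 0 := by positivity
    simp [ih, this]

theorem P_ne_zero (k : ℕ) : P k ≠ 0 := by
  intro h
  exact P_eval_one_ne k (by rw [h]; simp)

/-- The differential equation, pointwise. -/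
theorem P_ode_eval (k : ℕ) (u : ℝ) : (1 - u ^ 2) * (derivative (derivative (P k))).eval u
    - 2 * u * (derivative (P k)).eval u + (k : ℝ) * (k + 1) * (P k).eval u = 0 := by
  have h := congrArg (Polynomial.eval u) (P_ode k)
  simpa using h

/-- Sturm comparison, one sign. -/
theorem sturm_aux (k : ℕ) (hk : 1 ≤ k) (Q : ℝ[X])
    (hode : ∀ u, (1 - u ^ 2) * (derivative (derivative Q)).eval u
      - 2 * u * (derivative Q).eval u + (k : ℝ) * (k + 1) * Q.eval u = 0)
    {a b : ℝ} (ha : -1 < a) (hb : b < 1) (hab : b = a + Real.pi / k)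
    (hpos : ∀ u ∈ Set.Ioo a b, 0 < Q.eval u) : False := by
  have hk0 : (0 : ℝ) < k := by exact_mod_cast hk
  have hk1 : (1 : ℝ) ≤ k := by exact_mod_cast hk
  have hlt : a < b := by
    rw [hab]
    have : 0 < Real.pi / k := div_pos Real.pi_pos hk0
    linarith
  have hs : ∀ u ∈ Set.Icc a b, 0 < 1 - u ^ 2 := by
    intro u hu
    have h1 : -1 < u := lt_of_lt_of_le ha hu.1
    have h2 : u < 1 := lt_of_le_of_lt hu.2 hb
    nlinarith
  -- the function
  set A : ℝ → ℝ := fun u =>
    (Real.sqrt (1 - u ^ 2) * (derivative Q).eval u - u / Real.sqrt (1 - u ^ 2) * Q.eval u)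
      * Real.sin (k * (u - a)) - k * (Real.sqrt (1 - u ^ 2) * Q.eval u) * Real.cos (k * (u - a))
    with hA
  have hder : ∀ u ∈ Set.Icc a b, HasDerivAt A
      (((k : ℝ) ^ 2 - k * (k + 1) / (1 - u ^ 2) - 1 / (1 - u ^ 2) ^ 2)
        * (Real.sqrt (1 - u ^ 2) * Q.eval u) * Real.sin (k * (u - a))) u := by
    intro u hu
    have hsu := hs u hu
    set s := Real.sqrt (1 - u ^ 2) with hsdef
    have hs0 : 0 < s := Real.sqrt_pos.mpr hsu
    have hss : s ^ 2 = 1 - u ^ 2 := Real.sq_sqrt hsu.le
    have hq : HasDerivAt (fun x => Q.eval x) ((derivative Q).eval u) u := Q.hasDerivAt u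
    have hq' : HasDerivAt (fun x => (derivative Q).eval x)
      ((derivative (derivative Q)).eval u) u := (derivative Q).hasDerivAt u
    have hsd : HasDerivAt (fun x => Real.sqrt (1 - x ^ 2)) (-(u / s)) u := by
      have h1 : HasDerivAt (fun x : ℝ => 1 - x ^ 2) (-(2 * u)) u := by
        have := (hasDerivAt_pow 2 u).const_sub 1
        simpa using this
      have h2 := h1.sqrt hsu.ne'
      convert h2 using 1
      rw [← hsdef]
      field_simp
    have hlin : HasDerivAt (fun x : ℝ => (k : ℝ) * (x - a)) k u := by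
      have := ((hasDerivAt_id u).sub_const a).const_mul (k : ℝ)
      simpa using this
    have hsin := hlin.sin
    have hcos := hlin.cos
    have hus : HasDerivAt (fun x : ℝ => x / Real.sqrt (1 - x ^ 2))
        ((1 * s - u * (-(u / s))) / s ^ 2) u := by
      exact (hasDerivAt_id' u).fun_div hsd hs0.ne'
    have h := (((hsd.fun_mul hq').fun_sub (hus.fun_mul hq)).fun_mul hsin).fun_sub
      (((hsd.fun_mul hq).const_mul (k : ℝ)).fun_mul hcos)
    refine h.congr_deriv ?_
    have hode' := hode u
    have hQ'' : (derivative (derivative Q)).eval u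
        = (2 * u * (derivative Q).eval u - (k : ℝ) * (k + 1) * Q.eval u) / s ^ 2 := by
      rw [hss, eq_div_iff hsu.ne']
      linarith
    simp only [← hsdef]
    rw [hQ'', ← hss]
    have hu2 : u ^ 2 = 1 - s ^ 2 := by linarith
    field_simp
    ring_nf
    simp only [hu2]
    ring
  have hcont : ContinuousOn A (Set.Icc a b) := fun u hu => (hder u hu).continuousAt.continuousWithinAt
  have hanti : StrictAntiOn A (Set.Icc a b) := by
    refine strictAntiOn_of_deriv_neg (convex_Icc a b) hcont ?_
    intro u hu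
    rw [interior_Icc] at hu
    have hu' : u ∈ Set.Icc a b := Set.Ioo_subset_Icc_self hu
    rw [(hder u hu').deriv]
    have hsu := hs u hu'
    have hq := hpos u hu
    have hsin : 0 < Real.sin (k * (u - a)) := by
      apply Real.sin_pos_of_pos_of_lt_pi
      · exact mul_pos hk0 (sub_pos.mpr hu.1)
      · have h1 : u - a < Real.pi / k := by have := hu.2; rw [hab] at this; linarith
        calc (k : ℝ) * (u - a) < k * (Real.pi / k) := by gcongr
          _ = Real.pi := by field_simp
    have hcoef : (k : ℝ) ^ 2 - k * (k + 1) / (1 - u ^ 2) - 1 / (1 - u ^ 2) ^ 2 < 0 := by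
      have h1 : (k : ℝ) * (k + 1) ≤ k * (k + 1) / (1 - u ^ 2) := by
        rw [le_div_iff₀ hsu]
        have : (0 : ℝ) ≤ k * (k + 1) := by positivity
        nlinarith [sq_nonneg u]
      have h2 : 0 < 1 / (1 - u ^ 2) ^ 2 := by positivity
      nlinarith
    have hw : 0 < Real.sqrt (1 - u ^ 2) * Q.eval u := mul_pos (Real.sqrt_pos.mpr hsu) hq
    exact mul_neg_of_neg_of_pos (mul_neg_of_neg_of_pos hcoef hw) hsin
  have hlt' := hanti (Set.left_mem_Icc.mpr hlt.le) (Set.right_mem_Icc.mpr hlt.le) hlt
  -- nonnegativity at the end points by continuity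
  have hclos : ∀ u ∈ Set.Icc a b, 0 ≤ Q.eval u := by
    intro u hu
    have hc : Set.Icc a b ⊆ closure (Set.Ioo a b) := by rw [closure_Ioo hlt.ne]
    have h1 : closure (Set.Ioo a b) ⊆ {u | 0 ≤ Q.eval u} :=
      closure_minimal (fun u hu => (hpos u hu).le)
        (isClosed_le continuous_const Q.continuous)
    exact h1 (hc hu)
  have hAa : A a ≤ 0 := by
    have : A a = - (k * (Real.sqrt (1 - a ^ 2) * Q.eval a)) := by
      simp [hA]
    rw [this]
    have := hclos a (Set.left_mem_Icc.mpr hlt.le)
    have := Real.sqrt_nonneg (1 - a ^ 2)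
    have : 0 ≤ (k : ℝ) * (Real.sqrt (1 - a ^ 2) * Q.eval a) := by positivity
    linarith
  have hAb : 0 ≤ A b := by
    have hkb : (k : ℝ) * (b - a) = Real.pi := by rw [hab]; field_simp; ring
    have : A b = k * (Real.sqrt (1 - b ^ 2) * Q.eval b) := by
      simp [hA, hkb]
    rw [this]
    have := hclos b (Set.right_mem_Icc.mpr hlt.le)
    have := Real.sqrt_nonneg (1 - b ^ 2)
    positivity
  linarith

/-- `P k` has a zero in each interval of length `π/k` inside `(-1,1)`. -/
theorem P_zero (k : ℕ) (hk : 1 ≤ k) {a b : ℝ} (ha : -1 < a) (hb : b < 1)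
    (hab : b = a + Real.pi / k) : ∃ z ∈ Set.Ioo a b, (P k).eval z = 0 := by
  have hk0 : (0 : ℝ) < k := by exact_mod_cast hk
  have hlt : a < b := by
    rw [hab]
    have : 0 < Real.pi / k := div_pos Real.pi_pos hk0
    linarith
  by_contra hno
  push Not at hno
  have hpc : IsPreconnected (Set.Ioo a b) := isPreconnected_Ioo
  have hcont : ContinuousOn (fun u => (P k).eval u) (Set.Ioo a b) := (P k).continuous.continuousOn
  have hsign : (∀ u ∈ Set.Ioo a b, 0 < (P k).eval u) ∨ (∀ u ∈ Set.Ioo a b, (P k).eval u < 0) := by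
    by_contra hcon
    push Not at hcon
    obtain ⟨⟨u, hu, hu1⟩, ⟨v, hv, hv1⟩⟩ := hcon
    obtain ⟨z, hz, hz0⟩ := hpc.intermediate_value hu hv hcont ⟨hu1, hv1⟩
    exact hno z hz hz0
  rcases hsign with h | h
  · exact sturm_aux k hk (P k) (P_ode_eval k) ha hb hab h
  · refine sturm_aux k hk (-(P k)) ?_ ha hb hab ?_
    · intro u
      have := P_ode_eval k u
      simp only [derivative_neg, eval_neg]
      linarith
    · intro u hu
      have := h u hu
      simp only [eval_neg]
      linarith

/-- Between two zeros of a nonzero polynomial there is a critical point which is not a zero. -/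
theorem crit_between (Q : ℝ[X]) (hQ : Q ≠ 0) {x y : ℝ} (hxy : x < y) (hx : Q.eval x = 0)
    (hy : Q.eval y = 0) : ∃ c ∈ Set.Ioo x y, (derivative Q).eval c = 0 ∧ Q.eval c ≠ 0 := by
  obtain ⟨c, hc, hmax⟩ := isCompact_Icc.exists_isMaxOn (Set.nonempty_Icc.mpr hxy.le)
    ((Q.continuous.pow 2).continuousOn (s := Set.Icc x y))
  -- a point where Q does not vanish
  obtain ⟨w, hw, hw0⟩ : ∃ w ∈ Set.Icc x y, Q.eval w ≠ 0 := by
    by_contra hno
    push Not at hno
    have hinf : (Set.Icc x y).Infinite := Set.Icc_infinite hxy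
    apply hinf
    refine (Q.rootSet_finite ℝ).subset ?_
    intro u hu
    rw [mem_rootSet]
    exact ⟨hQ, by simpa using hno u hu⟩
  have hcpos : 0 < Q.eval c ^ 2 := by
    have h1 : Q.eval w ^ 2 ≤ Q.eval c ^ 2 := hmax hw
    have h2 : 0 < Q.eval w ^ 2 := by positivity
    linarith
  have hc0 : Q.eval c ≠ 0 := by
    intro h; rw [h] at hcpos; simp at hcpos
  have hcI : c ∈ Set.Ioo x y := by
    refine ⟨lt_of_le_of_ne hc.1 ?_, lt_of_le_of_ne hc.2 ?_⟩
    · rintro rfl; exact hc0 hx
    · rintro rfl; exact hc0 hy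
  refine ⟨c, hcI, ?_, hc0⟩
  have hloc : IsLocalMax (fun u => Q.eval u ^ 2) c :=
    hmax.isLocalMax (Icc_mem_nhds hcI.1 hcI.2)
  have hd : HasDerivAt (fun u => Q.eval u ^ 2) (2 * Q.eval c ^ 1 * (derivative Q).eval c) c := by
    have := (Q.hasDerivAt c).fun_pow 2
    simpa using this
  have h0 := hloc.hasDerivAt_eq_zero hd
  have h1 : 2 * Q.eval c ^ 1 ≠ 0 := by simpa using hc0
  exact (mul_eq_zero.mp h0).resolve_left h1

theorem crit_count (k : ℕ) : ∃ U : Finset ℝ, U.card = K k ∧
    ∀ u ∈ U, |u| < 7 / 10 ∧ (derivative (P k)).eval u = 0 ∧ (P k).eval u ≠ 0 := by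
  rcases Nat.eq_zero_or_pos k with rfl | hk
  · exact ⟨∅, by simp [K], by simp⟩
  have hk0 : (0 : ℝ) < k := by exact_mod_cast hk
  set r := 4 * k / 9 with hr
  have hr9 : 9 * r ≤ 4 * k := by rw [hr]; exact Nat.mul_div_le _ _
  set d := Real.pi / k with hd
  have hdpos : 0 < d := div_pos Real.pi_pos hk0
  have hrd : (r : ℝ) * d < 7 / 5 := by
    have h1 : (9 : ℝ) * r ≤ 4 * k := by exact_mod_cast hr9
    have h2 : Real.pi < 3.15 := Real.pi_lt_d2
    have h3 : (k : ℝ) * d = Real.pi := by rw [hd]; field_simp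
    have h4 : (9 : ℝ) * r * d ≤ 4 * k * d := by gcongr
    nlinarith
  set a : ℕ → ℝ := fun i => -(7 / 10) + i * d with ha
  have ha1 : ∀ i, a (i + 1) = a i + d := by intro i; simp [ha]; ring
  have hmono : Monotone a := by
    apply monotone_nat_of_le_succ
    intro i; rw [ha1]; linarith
  have ha0 : ∀ i, -(7 / 10) ≤ a i := by
    intro i; simp only [ha]
    have : 0 ≤ (i : ℝ) * d := by positivity
    linarith
  have har : ∀ i ≤ r, a i < 7 / 10 := by
    intro i hi
    have h1 := hmono hi
    have h2 : a r = -(7 / 10) + r * d := rfl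
    linarith
  have hz : ∀ i : ℕ, ∃ z : ℝ, i < r → z ∈ Set.Ioo (a i) (a (i + 1)) ∧ (P k).eval z = 0 := by
    intro i
    by_cases hi : i < r
    · obtain ⟨z, hz, hz0⟩ := P_zero k hk (a := a i) (b := a (i + 1))
        (by have := ha0 i; linarith) (by have := har (i + 1) hi; linarith) (ha1 i)
      exact ⟨z, fun _ => ⟨hz, hz0⟩⟩
    · exact ⟨0, fun h => absurd h hi⟩
  choose z hz using hz
  have hc : ∀ i : ℕ, ∃ c : ℝ, i + 1 < r → c ∈ Set.Ioo (z i) (z (i + 1)) ∧
      (derivative (P k)).eval c = 0 ∧ (P k).eval c ≠ 0 := by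
    intro i
    by_cases hi : i + 1 < r
    · have h1 := hz i (by omega)
      have h2 := hz (i + 1) hi
      obtain ⟨c, hc, hc'⟩ := crit_between (P k) (P_ne_zero k)
        (lt_trans h1.1.2 h2.1.1) h1.2 h2.2
      exact ⟨c, fun _ => ⟨hc, hc'⟩⟩
    · exact ⟨0, fun h => absurd h hi⟩
  choose c hc using hc
  have hlt : ∀ i j, i < j → j + 1 < r → c i < c j := by
    intro i j hij hj
    have h1 := (hc i (by omega)).1.2
    have h2 := (hc j hj).1.1
    have h3 : z (i + 1) ≤ z j := by
      rcases Nat.eq_or_lt_of_le (Nat.succ_le_of_lt hij) with h | h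
      · simp only [Nat.succ_eq_add_one] at h
        rw [h]
      · have h4 := (hz (i + 1) (by omega)).1.2
        have h5 := (hz j (by omega)).1.1
        have h6 : a (i + 1 + 1) ≤ a j := hmono (by omega)
        linarith
    linarith
  refine ⟨(Finset.range (r - 1)).image c, ?_, ?_⟩
  · rw [Finset.card_image_of_injOn, Finset.card_range]
    · rfl
    · intro i hi j hj hij
      simp only [Finset.coe_range, Set.mem_Iio] at hi hj
      rcases lt_trichotomy i j with h | h | h
      · exact absurd hij (hlt i j h (by omega)).ne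
      · exact h
      · exact absurd hij (hlt j i h (by omega)).ne'
  · intro u hu
    obtain ⟨i, hi, rfl⟩ := Finset.mem_image.mp hu
    rw [Finset.mem_range] at hi
    have h := hc i (by omega)
    have h1 := (hz i (by omega)).1
    have h2 := (hz (i + 1) (by omega)).1
    refine ⟨?_, h.2⟩
    rw [abs_lt]
    have h3 := ha0 i
    have h4 := har (i + 1 + 1) (by omega)
    constructor
    · have := h.1.1; have := h1.1; linarith
    · have := h.1.2; have := h2.2; linarith

end PC992
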