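import Mathlib
import Pool.Agent.Work.MP_992d6e_an.Mult
import Pool.Agent.Work.MP_992d6e_an.Sturm

/-!
MP_992d6e_an, cubic lower bound: the two-term model.
-/

namespace PC992

open Filter Topology Polynomial

noncomputable section

/-- derivatives of a combination of two functions that are smooth at `x` -/
lemma fderiv_comb {F G : E → ℝ} {x : E} (hF : ContDiffAt ℝ 2 F x) (hG : ContDiffAt ℝ 2 G x)
    (α σ : ℝ) :
    fderiv ℝ (fun y => α * F y + σ * G y) x = α • fderiv ℝ F x + σ • fderiv ℝ G x := by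
  have h1 : DifferentiableAt ℝ F x := hF.differentiableAt (by norm_num)
  have h2 : DifferentiableAt ℝ G x := hG.differentiableAt (by norm_num)
  exact ((h1.hasFDerivAt.const_mul α).fun_add (h2.hasFDerivAt.const_mul σ)).fderiv

lemma fderiv2_comb {F G : E → ℝ} {x : E} (hF : ContDiffAt ℝ 2 F x) (hG : ContDiffAt ℝ 2 G x)
    (α σ : ℝ) :
    fderiv ℝ (fderiv ℝ (fun y => α * F y + σ * G y)) x =
      α • fderiv ℝ (fderiv ℝ F) x + σ • fderiv ℝ (fderiv ℝ G) x := by
  have hev : fderiv ℝ (fun y => α * F y + σ * G y) =ᶠ[𝓝 x]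
      fun y => α • fderiv ℝ F y + σ • fderiv ℝ G y := by
    filter_upwards [hF.eventually (by norm_num), hG.eventually (by norm_num)] with y h1 h2
    exact fderiv_comb h1 h2 α σ
  rw [hev.fderiv_eq]
  have h1 : DifferentiableAt ℝ (fderiv ℝ F) x :=
    (hF.fderiv_right (m := 1) (by norm_num)).differentiableAt (by norm_num)
  have h2 : DifferentiableAt ℝ (fderiv ℝ G) x :=
    (hG.fderiv_right (m := 1) (by norm_num)).differentiableAt (by norm_num)
  exact ((h1.hasFDerivAt.const_smul α).fun_add (h2.hasFDerivAt.const_smul σ)).fderiv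

/-- the frame hypotheses -/
structure Frame (e f g : E) : Prop where
  he : inner ℝ e e = (1 : ℝ)
  hf : inner ℝ f f = (1 : ℝ)
  hg : inner ℝ g g = (1 : ℝ)
  hef : inner ℝ e f = (0 : ℝ)
  heg : inner ℝ e g = (0 : ℝ)
  hfg : inner ℝ f g = (0 : ℝ)
  span : ∀ v : E, inner ℝ e v = (0 : ℝ) → inner ℝ f v = (0 : ℝ) → inner ℝ g v = (0 : ℝ) → v = 0

theorem model_point (a : ℕ) (ha : 1 ≤ a) {e f g : E} (hfr : Frame e f g)
    {α σ u v y t : ℝ} (hα : α ≠ 0) (hσ : σ ≠ 0)
    (hu : (derivative (P a)).eval u = 0) (hu0 : (P a).eval u ≠ 0)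
    (hv : (derivative (P (a + 1))).eval v = 0) (hv0 : (P (a + 1)).eval v ≠ 0)
    (hy : u ^ 2 + v ^ 2 + y ^ 2 = 1) (hy0 : y ≠ 0) (ht : 0 < t)
    (hrel : α * (a + 1) * (P a).eval u * t + σ * (a + 2) * (P (a + 1)).eval v = 0) :
    t • (u • e + v • f + y • g) ∈ NDC (fun x => α * Ek a e x + σ * Ek (a + 1) f x) := by
  obtain ⟨he, hf, hg, hef, heg, hfg, hspan⟩ := hfr
  have hfe : inner ℝ f e = (0 : ℝ) := by rw [real_inner_comm, hef]
  have hge : inner ℝ g e = (0 : ℝ) := by rw [real_inner_comm, heg]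
  have hgf : inner ℝ g f = (0 : ℝ) := by rw [real_inner_comm, hfg]
  set ω : E := u • e + v • f + y • g with hωdef
  have hωω : inner ℝ ω ω = (1 : ℝ) := by
    simp only [hωdef, inner_add_left, inner_add_right, real_inner_smul_left,
      real_inner_smul_right, he, hf, hg, hef, heg, hfg, hfe, hge, hgf]
    linarith [hy]
  have hω : ‖ω‖ = 1 := by
    have : ‖ω‖ ^ 2 = 1 := by rw [← real_inner_self_eq_norm_sq, hωω]
    nlinarith [norm_nonneg ω]
  have heω : inner ℝ e ω = u := by
    simp only [hωdef, inner_add_right, real_inner_smul_right, he, hef, heg]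
    ring
  have hfω : inner ℝ f ω = v := by
    simp only [hωdef, inner_add_right, real_inner_smul_right, hf, hfe, hfg]
    ring
  have hω0 : ω ≠ 0 := by
    rintro h
    rw [h] at hω
    simp at hω
  have hx : t • ω ≠ 0 := smul_ne_zero ht.ne' hω0
  have hF : ContDiffAt ℝ 2 (Ek a e) (t • ω) := Ek_contDiffAt a e hx 2
  have hG : ContDiffAt ℝ 2 (Ek (a + 1) f) (t • ω) := Ek_contDiffAt (a + 1) f hx 2
  refine ⟨(contDiffAt_const.mul hF).add (contDiffAt_const.mul hG), ?_, ?_⟩
  · rw [fderiv_comb hF hG, Ek_eq_Phi, Ek_eq_Phi,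
      Phi_fderiv_crit (a + 1) (P a) e hω ht (by rw [heω]; exact hu),
      Phi_fderiv_crit (a + 1 + 1) (P (a + 1)) f hω ht (by rw [hfω]; exact hv), heω, hfω,
      smul_smul, smul_smul, ← add_smul]
    have e1 : (t ^ (a + 1 + 1))⁻¹ = t * (t ^ (a + 1 + 1 + 1))⁻¹ := by
      rw [pow_succ t (a + 1 + 1)]
      field_simp
    have : α * ((t ^ (a + 1 + 1))⁻¹ * (-((a + 1 : ℕ) : ℝ) * (P a).eval u)) +
        σ * ((t ^ (a + 1 + 1 + 1))⁻¹ * (-((a + 1 + 1 : ℕ) : ℝ) * (P (a + 1)).eval v)) = 0 := by
      rw [e1]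
      push_cast
      linear_combination (-(t ^ (a + 1 + 1 + 1))⁻¹) * hrel
    rw [this, zero_smul]
  · intro z hz
    have hB : ∀ w : E, α * (t * (-((a + 1 : ℕ) : ℝ) * (P a).eval u *
          (inner ℝ z w - ((a + 1 : ℕ) + 2) * inner ℝ ω z * inner ℝ ω w)
        + (derivative (derivative (P a))).eval u *
          (inner ℝ e z - u * inner ℝ ω z) * (inner ℝ e w - u * inner ℝ ω w))) +
        σ * (-((a + 1 + 1 : ℕ) : ℝ) * (P (a + 1)).eval v *
          (inner ℝ z w - ((a + 1 + 1 : ℕ) + 2) * inner ℝ ω z * inner ℝ ω w)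
        + (derivative (derivative (P (a + 1)))).eval v *
          (inner ℝ f z - v * inner ℝ ω z) * (inner ℝ f w - v * inner ℝ ω w)) = 0 := by
      intro w
      have h1 := Phi_fderiv2_crit (a + 1) (P a) e hω ht (by rw [heω]; exact hu) z w
      have h2 := Phi_fderiv2_crit (a + 1 + 1) (P (a + 1)) f hω ht (by rw [hfω]; exact hv) z w
      rw [heω] at h1
      rw [hfω] at h2
      have h3 := congrArg (fun L : E →L[ℝ] ℝ => L w) hz
      simp only [fderiv2_comb hF hG] at h3
      rw [Ek_eq_Phi, Ek_eq_Phi, _root_.add_apply, _root_.add_apply, _root_.smul_apply,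
        _root_.smul_apply, _root_.smul_apply, _root_.smul_apply, h1, h2,
        _root_.zero_apply, smul_eq_mul, smul_eq_mul] at h3
      have e1 : (t ^ (a + 1 + 2))⁻¹ = t * (t ^ (a + 1 + 1 + 2))⁻¹ := by
        rw [show a + 1 + 1 + 2 = (a + 1 + 2) + 1 by ring, pow_succ t (a + 1 + 2)]
        field_simp
      rw [e1] at h3
      have e2 : (t ^ (a + 1 + 1 + 2))⁻¹ ≠ 0 := by positivity
      refine (mul_eq_zero.mp (?_ : (t ^ (a + 1 + 1 + 2))⁻¹ * _ = 0)).resolve_left e2
      rw [← h3]
      ring
    have hode1 := congrArg (Polynomial.eval u) (P_ode a)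
    have hode2 := congrArg (Polynomial.eval v) (P_ode (a + 1))
    simp [hu] at hode1
    simp [hv] at hode2
    set p := (P a).eval u with hp
    set q := (P (a + 1)).eval v with hq
    set p2 := (derivative (derivative (P a))).eval u with hp2
    set q2 := (derivative (derivative (P (a + 1)))).eval v with hq2
    have hapos : (0 : ℝ) < a := by exact_mod_cast ha
    have hp20 : p2 ≠ 0 := by
      intro h
      rw [h] at hode1
      have : (a : ℝ) * (a + 1) * p ≠ 0 := by positivity
      apply this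
      linarith [hode1]
    have hq20 : q2 ≠ 0 := by
      intro h
      rw [h] at hode2
      have : ((a : ℝ) + 1) * (a + 1 + 1) * q ≠ 0 := by positivity
      apply this
      linarith [hode2]
    have htp : t ^ a ≠ 0 := pow_ne_zero _ ht.ne'
    -- first: omega component
    have hωz : inner ℝ ω z = (0 : ℝ) := by
      have h := hB ω
      rw [hωω, heω, hfω, real_inner_comm ω z] at h
      push_cast at h
      have h' : (σ * (a + 2) * q) * inner ℝ ω z = 0 := by
        linear_combination h + (-(a + 2) * inner ℝ ω z) * hrel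
      rcases mul_eq_zero.mp h' with h'' | h''
      · exfalso
        have : σ * ((a : ℝ) + 2) * q ≠ 0 := by positivity
        exact this h''
      · exact h''
    have hez : inner ℝ e z = (0 : ℝ) := by
      have h := hB (y • e - u • g)
      have h1 : inner ℝ ω (y • e - u • g) = (0 : ℝ) := by
        simp only [hωdef, inner_add_left, inner_sub_right, real_inner_smul_left,
          real_inner_smul_right, he, hg, heg, hfe, hfg, hge]
        ring
      have h2 : inner ℝ e (y • e - u • g) = y := by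
        simp only [inner_sub_right, real_inner_smul_right, he, heg]
        ring
      have h3 : inner ℝ f (y • e - u • g) = (0 : ℝ) := by
        simp only [inner_sub_right, real_inner_smul_right, hfe, hfg]
        ring
      rw [h1, h2, h3, hωz] at h
      push_cast at h
      have h' : (α * p2 * y) * (t * inner ℝ e z) = 0 := by
        linear_combination h + (inner ℝ z (y • e - u • g)) * hrel
      rcases mul_eq_zero.mp h' with h'' | h''
      · exfalso
        have : α * p2 * y ≠ 0 := by positivity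
        exact this h''
      · rcases mul_eq_zero.mp h'' with h3 | h3
        · exact absurd h3 ht.ne'
        · exact h3
    have hfz : inner ℝ f z = (0 : ℝ) := by
      have h := hB (y • f - v • g)
      have h1 : inner ℝ ω (y • f - v • g) = (0 : ℝ) := by
        simp only [hωdef, inner_add_left, inner_sub_right, real_inner_smul_left,
          real_inner_smul_right, hf, hg, heg, hef, hfg, hgf]
        ring
      have h2 : inner ℝ f (y • f - v • g) = y := by
        simp only [inner_sub_right, real_inner_smul_right, hf, hfg]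
        ring
      have h3 : inner ℝ e (y • f - v • g) = (0 : ℝ) := by
        simp only [inner_sub_right, real_inner_smul_right, hef, heg]
        ring
      rw [h1, h2, h3, hωz] at h
      push_cast at h
      have h' : (σ * q2 * y) * (inner ℝ f z) = 0 := by
        linear_combination h + (inner ℝ z (y • f - v • g)) * hrel
      rcases mul_eq_zero.mp h' with h'' | h''
      · exfalso
        have : σ * q2 * y ≠ 0 := by positivity
        exact this h''
      · exact h''
    have hgz : inner ℝ g z = (0 : ℝ) := by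
      have h := hωz
      simp only [hωdef, inner_add_left, real_inner_smul_left, hez, hfz] at h
      have h' : y * inner ℝ g z = 0 := by linarith
      rcases mul_eq_zero.mp h' with h'' | h''
      · exact absurd h'' hy0
      · exact h''
    exact hspan z hez hfz hgz

/-- the two-term model has at least `K a * K (a+1)` nondegenerate critical points, for a suitable
sign of the second coefficient. -/
theorem model (a : ℕ) {e f g : E} (hfr : Frame e f g) {α : ℝ} (hα : α ≠ 0) :
    ∃ σ : ℝ, σ ≠ 0 ∧ ∃ S : Finset E, K a * K (a + 1) ≤ S.card ∧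
      ∀ x ∈ S, x ≠ 0 ∧ x ∈ NDC (fun x => α * Ek a e x + σ * Ek (a + 1) f x) := by
  classical
  by_cases hK : K a * K (a + 1) = 0
  · exact ⟨1, one_ne_zero, ∅, by simp [hK], by simp⟩
  have ha : 1 ≤ a := by
    by_contra h
    have : a = 0 := by omega
    subst this
    exact hK (by simp [K])
  obtain ⟨U, hUc, hU⟩ := crit_count a
  obtain ⟨W, hWc, hW⟩ := crit_count (a + 1)
  obtain ⟨he, hf, hg, hef, heg, hfg, hspan⟩ := hfr
  have hfe : inner ℝ f e = (0 : ℝ) := by rw [real_inner_comm, hef]
  have hge : inner ℝ g e = (0 : ℝ) := by rw [real_inner_comm, heg]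
  have hgf : inner ℝ g f = (0 : ℝ) := by rw [real_inner_comm, hfg]
  -- choice of the sign
  let Tp := (U ×ˢ W).filter (fun p => 0 < α * (P a).eval p.1 * (P (a + 1)).eval p.2)
  let Tn := (U ×ˢ W).filter (fun p => ¬ 0 < α * (P a).eval p.1 * (P (a + 1)).eval p.2)
  have hcard : Tp.card + Tn.card = K a * K (a + 1) := by
    rw [Finset.card_filter_add_card_filter_not, Finset.card_product, hUc, hWc]
  obtain ⟨σ, hσ, T, hT2, hT⟩ : ∃ σ : ℝ, σ ≠ 0 ∧ ∃ T : Finset (ℝ × ℝ),
      K a * K (a + 1) ≤ 2 * T.card ∧ ∀ p ∈ T, p ∈ U ×ˢ W ∧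
        α * (P a).eval p.1 * (σ * (P (a + 1)).eval p.2) < 0 := by
    rcases le_total Tn.card Tp.card with h | h
    · refine ⟨-1, by norm_num, Tp, by omega, fun p hp => ?_⟩
      rw [Finset.mem_filter] at hp
      exact ⟨hp.1, by linarith [hp.2]⟩
    · refine ⟨1, by norm_num, Tn, by omega, fun p hp => ?_⟩
      rw [Finset.mem_filter] at hp
      refine ⟨hp.1, ?_⟩
      have h1 := hp.2
      rw [not_lt] at h1
      have hp' := Finset.mem_product.mp hp.1
      have h2 := (hU _ hp'.1).2.2
      have h3 := (hW _ hp'.2).2.2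
      have h4 : α * (P a).eval p.1 * (P (a + 1)).eval p.2 ≠ 0 := by positivity
      rcases h1.lt_or_eq with h5 | h5
      · linarith
      · exact absurd h5 h4
  -- the points
  let tt : ℝ × ℝ → ℝ := fun p =>
    - (σ * (a + 2) * (P (a + 1)).eval p.2) / (α * (a + 1) * (P a).eval p.1)
  let φ : (ℝ × ℝ) × ℝ → E := fun p =>
    tt p.1 • (p.1.1 • e + p.1.2 • f + (p.2 * √(1 - p.1.1 ^ 2 - p.1.2 ^ 2)) • g)
  have htt : ∀ p ∈ T, 0 < tt p := by
    intro p hp
    have h1 := (hT p hp).2
    have hp' := Finset.mem_product.mp (hT p hp).1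
    have h2 := (hU _ hp'.1).2.2
    have h3 : α * (P a).eval p.1 ≠ 0 := by positivity
    have h4 : tt p = (-(α * (P a).eval p.1 * (σ * (P (a + 1)).eval p.2))) * (a + 2) /
        ((α * (P a).eval p.1) ^ 2 * (a + 1)) := by
      simp only [tt]
      field_simp
    rw [h4]
    have : 0 < (α * (P a).eval p.1) ^ 2 := by positivity
    apply div_pos
    · apply mul_pos
      · linarith
      · positivity
    · positivity
  have hrad : ∀ p ∈ T, 0 < 1 - p.1 ^ 2 - p.2 ^ 2 := by
    intro p hp
    have hp' := Finset.mem_product.mp (hT p hp).1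
    have h2 := (hU _ hp'.1).1
    have h3 := (hW _ hp'.2).1
    rw [abs_lt] at h2 h3
    nlinarith
  have hmem : ∀ p ∈ T, ∀ s : ℝ, s ^ 2 = 1 → φ (p, s) ≠ 0 ∧
      φ (p, s) ∈ NDC (fun x => α * Ek a e x + σ * Ek (a + 1) f x) := by
    intro p hp s hs
    have hp' := Finset.mem_product.mp (hT p hp).1
    have h2 := hU _ hp'.1
    have h3 := hW _ hp'.2
    have hr := hrad p hp
    have hs0 : s ≠ 0 := by
      rintro rfl
      norm_num at hs
    have hy0 : s * √(1 - p.1 ^ 2 - p.2 ^ 2) ≠ 0 := by
      have := Real.sqrt_pos.mpr hr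
      positivity
    have hsq : √(1 - p.1 ^ 2 - p.2 ^ 2) ^ 2 = 1 - p.1 ^ 2 - p.2 ^ 2 := Real.sq_sqrt hr.le
    have key := model_point a ha ⟨he, hf, hg, hef, heg, hfg, hspan⟩ hα hσ h2.2.1 h2.2.2
      h3.2.1 h3.2.2 (y := s * √(1 - p.1 ^ 2 - p.2 ^ 2)) (t := tt p)
      (by rw [mul_pow, hsq, hs]; ring) hy0 (htt p hp) (by
        simp only [tt]
        have h20 := h2.2.2
        field_simp
        ring)
    refine ⟨?_, key⟩
    intro h0
    have h1 : inner ℝ g (φ (p, s)) = (0 : ℝ) := by rw [h0]; simp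
    simp only [φ, inner_add_right, real_inner_smul_right, hge, hgf, hg] at h1
    have h4 := htt p hp
    have : tt p * (s * √(1 - p.1 ^ 2 - p.2 ^ 2)) = 0 := by linarith
    rcases mul_eq_zero.mp this with h5 | h5
    · exact h4.ne' h5
    · exact hy0 h5
  -- injectivity
  have hinj : Set.InjOn φ ((T ×ˢ ({1, -1} : Finset ℝ) : Finset ((ℝ × ℝ) × ℝ)) : Set _) := by
    rintro ⟨⟨u, v⟩, s⟩ h1 ⟨⟨u', v'⟩, s'⟩ h2 heq
    have m1 := Finset.mem_product.mp (Finset.mem_coe.mp h1)
    have m2 := Finset.mem_product.mp (Finset.mem_coe.mp h2)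
    simp only [Finset.mem_insert, Finset.mem_singleton] at m1 m2
    have t1 := htt _ m1.1
    have t2 := htt _ m2.1
    have r1 := hrad _ m1.1
    have r2 := hrad _ m2.1
    have s1 : s ^ 2 = 1 := by rcases m1.2 with h | h <;> rw [h] <;> norm_num
    have s2 : s' ^ 2 = 1 := by rcases m2.2 with h | h <;> rw [h] <;> norm_num
    have ie := congrArg (fun x => inner ℝ e x) heq
    have jf := congrArg (fun x => inner ℝ f x) heq
    have kg := congrArg (fun x => inner ℝ g x) heq
    simp only [φ, inner_add_right, real_inner_smul_right, he, hef, heg, hfe, hf, hfg, hge, hgf,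
      hg] at ie jf kg
    have q1 : √(1 - u ^ 2 - v ^ 2) ^ 2 = 1 - u ^ 2 - v ^ 2 := Real.sq_sqrt r1.le
    have q2 : √(1 - u' ^ 2 - v' ^ 2) ^ 2 = 1 - u' ^ 2 - v' ^ 2 := Real.sq_sqrt r2.le
    have ie' : tt (u, v) * u = tt (u', v') * u' := by linarith
    have jf' : tt (u, v) * v = tt (u', v') * v' := by linarith
    have kg' : tt (u, v) * (s * √(1 - u ^ 2 - v ^ 2)) =
        tt (u', v') * (s' * √(1 - u' ^ 2 - v' ^ 2)) := by linarith
    have hts : tt (u, v) ^ 2 = tt (u', v') ^ 2 := by
      have e1 : tt (u, v) ^ 2 = (tt (u, v) * u) ^ 2 + (tt (u, v) * v) ^ 2 +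
          (tt (u, v) * (s * √(1 - u ^ 2 - v ^ 2))) ^ 2 := by
        rw [mul_pow, mul_pow, mul_pow, mul_pow, q1, s1]
        ring
      have e2 : tt (u', v') ^ 2 = (tt (u', v') * u') ^ 2 + (tt (u', v') * v') ^ 2 +
          (tt (u', v') * (s' * √(1 - u' ^ 2 - v' ^ 2))) ^ 2 := by
        rw [mul_pow, mul_pow, mul_pow, mul_pow, q2, s2]
        ring
      rw [e1, e2, ie', jf', kg']
    have ht : tt (u, v) = tt (u', v') := by nlinarith
    rw [ht] at ie' jf' kg'
    have hu : u = u' := mul_left_cancel₀ t2.ne' ie'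
    have hv : v = v' := mul_left_cancel₀ t2.ne' jf'
    subst hu
    subst hv
    have hs : s = s' := by
      have h5 := mul_left_cancel₀ t2.ne' kg'
      exact mul_right_cancel₀ (Real.sqrt_pos.mpr r1).ne' h5
    rw [hs]
  refine ⟨σ, hσ, (T ×ˢ ({1, -1} : Finset ℝ)).image φ, ?_, ?_⟩
  · rw [Finset.card_image_of_injOn hinj, Finset.card_product]
    have : ({1, -1} : Finset ℝ).card = 2 := by
      rw [Finset.card_pair]
      norm_num
    rw [this]
    omega
  · intro x hx
    rw [Finset.mem_image] at hx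
    obtain ⟨⟨p, s⟩, hps, rfl⟩ := hx
    rw [Finset.mem_product] at hps
    apply hmem p hps.1 s
    have := hps.2
    simp only [Finset.mem_insert, Finset.mem_singleton] at this
    rcases this with h | h <;> rw [h] <;> norm_num

end

end PC992
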