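import Pool.Agent.Work.MP_992d6e_an.Defs

/-!
MP_992d6e_an: persistence of nondegenerate critical points under `C^2` small perturbations, and the
algebra of continuous convergence of class `C^2`.
-/

namespace PC992

open Filter Topology

section Persist
variable {ι : Type*} {l : Filter ι}

theorem cda_fderiv {V : E → ℝ} {x : E} (h : ContDiffAt ℝ 2 V x) :
    ContDiffAt ℝ 1 (fderiv ℝ V) x :=
  h.fderiv_right (m := 1) (by norm_num)

theorem cda_cont1 {V : E → ℝ} {x : E} (h : ContDiffAt ℝ 2 V x) :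
    ContinuousAt (fderiv ℝ V) x :=
  (cda_fderiv h).continuousAt

theorem cda_cont2 {V : E → ℝ} {x : E} (h : ContDiffAt ℝ 2 V x) :
    ContinuousAt (fderiv ℝ (fderiv ℝ V)) x :=
  ((cda_fderiv h).fderiv_right (m := 0) (by norm_num)).continuousAt

theorem cda_diff1 {V : E → ℝ} {x : E} (h : ContDiffAt ℝ 2 V x) : DifferentiableAt ℝ V x :=
  h.differentiableAt (by norm_num)

theorem cda_diff2 {V : E → ℝ} {x : E} (h : ContDiffAt ℝ 2 V x) :
    DifferentiableAt ℝ (fderiv ℝ V) x :=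
  (cda_fderiv h).differentiableAt (by norm_num)

theorem cda_ev {V : E → ℝ} {x : E} (h : ContDiffAt ℝ 2 V x) :
    ∀ᶠ y in 𝓝 x, ContDiffAt ℝ 2 V y :=
  h.eventually (by norm_num)

theorem TC2.persist {F : ι → E → ℝ} {V : E → ℝ} {x0 : E} (h : TC2 l F V x0) (hx : x0 ∈ NDC V)
    {U : Set E} (hU : U ∈ 𝓝 x0) : ∀ᶠ i in l, ∃ x ∈ U, x ∈ NDC (F i) := by
  obtain ⟨h1, h2, h3, h4⟩ := h
  obtain ⟨hx1, hx2, hx3⟩ := hx
  set A : E →L[ℝ] (E →L[ℝ] ℝ) := fderiv ℝ (fderiv ℝ V) x0 with hA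
  have hinj : Function.Injective (A : E →ₗ[ℝ] (E →L[ℝ] ℝ)) := by
    rw [← LinearMap.ker_eq_bot, LinearMap.ker_eq_bot']
    intro v hv
    exact hx3 v hv
  have hfr : Module.finrank ℝ E = Module.finrank ℝ (E →L[ℝ] ℝ) := by
    rw [← (LinearMap.toContinuousLinearMap (𝕜 := ℝ) (E := E) (F' := ℝ)).finrank_eq]
    exact (Subspace.dual_finrank_eq (K := ℝ) (V := E)).symm
  let A1 : E ≃ₗ[ℝ] (E →L[ℝ] ℝ) := LinearMap.linearEquivOfInjective _ hinj hfr
  let A' : E ≃L[ℝ] (E →L[ℝ] ℝ) := A1.toContinuousLinearEquiv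
  have hA' : (A' : E →L[ℝ] (E →L[ℝ] ℝ)) = A := by
    ext v w
    simp [A', A1]
  -- the constant
  set N : ℝ := ‖(A'.symm : (E →L[ℝ] ℝ) →L[ℝ] E)‖ with hN
  have hNpos : 0 < N := by
    have : Nontrivial E := by infer_instance
    exact A'.norm_symm_pos
  set c : ℝ := N⁻¹ / 2 with hc
  have hcpos : 0 < c := by positivity
  have hlow : ∀ v, 2 * c * ‖v‖ ≤ ‖A v‖ := by
    intro v
    have : ‖v‖ ≤ N * ‖A v‖ := by
      have h' := (A'.symm : (E →L[ℝ] ℝ) →L[ℝ] E).le_opNorm (A' v)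
      rw [ContinuousLinearEquiv.coe_coe, A'.symm_apply_apply] at h'
      rw [← hA']
      exact h'
    have h2c : 2 * c = N⁻¹ := by rw [hc]; ring
    rw [h2c, inv_mul_le_iff₀ hNpos]
    exact this
  -- the good set
  have hclose : ∀ᶠ p : ι × E in l ×ˢ 𝓝 x0,
      ContDiffAt ℝ 2 (F p.1) p.2 ∧ ‖fderiv ℝ (fderiv ℝ (F p.1)) p.2 - A‖ < c := by
    refine h2.and ?_
    have h4' := tendsto_iff_norm_sub_tendsto_zero.1
      (show @Tendsto _ (E →L[ℝ] (E →L[ℝ] ℝ)) (fun p : ι × E => fderiv ℝ (fderiv ℝ (F p.1)) p.2)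
        (l ×ˢ 𝓝 x0) (@nhds _ PseudoMetricSpace.toUniformSpace.toTopologicalSpace A) from h4)
    exact h4'.eventually_lt_const hcpos
  obtain ⟨pa, hpa, pb, hpb, hab⟩ := eventually_prod_iff.1 hclose
  obtain ⟨r, hr, hrb⟩ := Metric.eventually_nhds_iff_ball.1 hpb
  obtain ⟨r', hr', hrU⟩ := Metric.mem_nhds_iff.1 hU
  set ε : ℝ := min r r' / 2 with hε
  have hεpos : 0 < ε := by have := lt_min hr hr'; positivity
  have hεr : Metric.closedBall x0 ε ⊆ Metric.ball x0 r := by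
    apply Metric.closedBall_subset_ball
    have h1 := min_le_left r r'
    have h2 : 0 < min r r' := lt_min hr hr'
    rw [hε]; linarith
  have hεU : Metric.closedBall x0 ε ⊆ U := by
    refine subset_trans (Metric.closedBall_subset_ball ?_) hrU
    have h1 := min_le_right r r'
    have h2 : 0 < min r r' := lt_min hr hr'
    rw [hε]; linarith
  -- smallness at the centre
  have hsmall : ∀ᶠ i in l, ‖fderiv ℝ (F i) x0‖ < c * ε := by
    have ht : Tendsto (fun i : ι => (i, x0)) l (l ×ˢ 𝓝 x0) :=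
      tendsto_id.prodMk tendsto_const_nhds
    have := (h3.comp ht).norm
    rw [hx2, norm_zero] at this
    exact this.eventually_lt_const (by positivity)
  filter_upwards [hpa, hsmall] with i hi his
  have hgood : ∀ x ∈ Metric.closedBall x0 ε,
      ContDiffAt ℝ 2 (F i) x ∧ ‖fderiv ℝ (fderiv ℝ (F i)) x - A‖ < c :=
    fun x hx => hab hi (hrb x (hεr hx))
  have happ : ApproximatesLinearOn (fderiv ℝ (F i)) (A' : E →L[ℝ] (E →L[ℝ] ℝ))
      (Metric.closedBall x0 ε) (⟨c, hcpos.le⟩ : NNReal) := by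
    intro x hx y hy
    have := Convex.norm_image_sub_le_of_norm_hasFDerivWithin_le' (𝕜 := ℝ)
      (f := fderiv ℝ (F i)) (f' := fun z => fderiv ℝ (fderiv ℝ (F i)) z)
      (φ := (A' : E →L[ℝ] (E →L[ℝ] ℝ))) (C := c)
      (s := Metric.closedBall x0 ε) (x := y) (y := x)
      (fun z hz => (cda_diff2 (hgood z hz).1).hasFDerivAt.hasFDerivWithinAt)
      (fun z hz => by rw [hA']; exact (hgood z hz).2.le)
      (convex_closedBall x0 ε) hy hx
    exact this
  have hsurj := happ.surjOn_closedBall_of_nonlinearRightInverse A'.toNonlinearRightInverse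
    hεpos.le (Set.Subset.refl _)
  have hzero : (0 : E →L[ℝ] ℝ) ∈ Metric.closedBall (fderiv ℝ (F i) x0)
      (((A'.toNonlinearRightInverse.nnnorm : ℝ)⁻¹ - ((⟨c, hcpos.le⟩ : NNReal) : ℝ)) * ε) := by
    rw [Metric.mem_closedBall, dist_comm, dist_zero_right]
    have e1 : ((A'.toNonlinearRightInverse.nnnorm : ℝ)⁻¹ - ((⟨c, hcpos.le⟩ : NNReal) : ℝ)) = c := by
      change N⁻¹ - c = c
      rw [hc]; ring
    rw [e1]
    exact his.le
  obtain ⟨x, hx, hx0⟩ := hsurj hzero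
  refine ⟨x, hεU hx, (hgood x hx).1, hx0, ?_⟩
  intro v hv
  have hb := (hgood x hx).2
  have h5 : ‖A v‖ ≤ c * ‖v‖ := by
    have h6 : (fderiv ℝ (fderiv ℝ (F i)) x - A) v = - A v := by
      rw [sub_apply, hv, zero_sub]
    have h7 := (fderiv ℝ (fderiv ℝ (F i)) x - A).le_opNorm v
    rw [h6, norm_neg] at h7
    exact h7.trans (mul_le_mul_of_nonneg_right hb.le (norm_nonneg v))
  have h8 := hlow v
  have h9 : c * ‖v‖ ≤ 0 := by nlinarith
  have h10 : ‖v‖ ≤ 0 := by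
    by_contra hne
    push Not at hne
    have := mul_pos hcpos hne
    linarith
  exact norm_le_zero_iff.1 h10

theorem persist_finset {F : ι → E → ℝ} {V : E → ℝ} (S : Finset E) (Ω : Set E)
    (hS : ∀ x ∈ S, x ∈ NDC V ∧ TC2 l F V x ∧ Ω ∈ 𝓝 x) :
    ∀ᶠ i in l, ∃ T : Finset E, T.card = S.card ∧ ∀ x ∈ T, x ∈ Ω ∧ x ∈ NDC (F i) := by
  classical
  obtain ⟨U, hU, hdisj⟩ := (S.finite_toSet).t2_separation
  have hev : ∀ᶠ i in l, ∀ x ∈ S, ∃ y ∈ U x ∩ Ω, y ∈ NDC (F i) := by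
    rw [Filter.eventually_all_finset]
    intro x hx
    obtain ⟨hx1, hx2, hx3⟩ := hS x hx
    exact hx2.persist hx1 (inter_mem ((hU x).2.mem_nhds (hU x).1) hx3)
  filter_upwards [hev] with i hi
  choose! g hg1 hg2 using hi
  refine ⟨S.image g, ?_, ?_⟩
  · apply Finset.card_image_of_injOn
    intro x hx y hy hxy
    by_contra hne
    have hd := hdisj (Finset.mem_coe.1 hx) (Finset.mem_coe.1 hy) hne
    have h1 := (hg1 x hx).1
    have h2 := (hg1 y hy).1
    have hxy' : g x = g y := hxy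
    rw [hxy'] at h1
    exact Set.disjoint_left.1 hd h1 h2
  · intro y hy
    obtain ⟨x, hx, rfl⟩ := Finset.mem_image.1 hy
    exact ⟨(hg1 x hx).2, hg2 x hx⟩

theorem TC2.const {V : E → ℝ} {x0 : E} (h : ContDiffAt ℝ 2 V x0) :
    TC2 l (fun _ => V) V x0 := by
  refine ⟨h, (cda_ev h).prod_inr l, ?_, ?_⟩
  · exact (cda_cont1 h).tendsto.comp tendsto_snd
  · exact (cda_cont2 h).tendsto.comp tendsto_snd

theorem fderiv_add' {f g : E → ℝ} {x : E} (hf : ContDiffAt ℝ 2 f x) (hg : ContDiffAt ℝ 2 g x) :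
    fderiv ℝ (fun x => f x + g x) x = fderiv ℝ f x + fderiv ℝ g x :=
  fderiv_fun_add (cda_diff1 hf) (cda_diff1 hg)

theorem fderiv2_add {f g : E → ℝ} {x : E} (hf : ContDiffAt ℝ 2 f x) (hg : ContDiffAt ℝ 2 g x) :
    fderiv ℝ (fderiv ℝ (fun x => f x + g x)) x
      = fderiv ℝ (fderiv ℝ f) x + fderiv ℝ (fderiv ℝ g) x := by
  have he : fderiv ℝ (fun x => f x + g x) =ᶠ[𝓝 x] fun y => fderiv ℝ f y + fderiv ℝ g y := by
    filter_upwards [cda_ev hf, cda_ev hg] with y h1 h2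
    exact fderiv_add' h1 h2
  rw [he.fderiv_eq]
  exact fderiv_fun_add (cda_diff2 hf) (cda_diff2 hg)

theorem TC2.add {F G : ι → E → ℝ} {V W : E → ℝ} {x0 : E} (hF : TC2 l F V x0) (hG : TC2 l G W x0) :
    TC2 l (fun i x => F i x + G i x) (fun x => V x + W x) x0 := by
  obtain ⟨a1, a2, a3, a4⟩ := hF
  obtain ⟨b1, b2, b3, b4⟩ := hG
  refine ⟨a1.add b1, ?_, ?_, ?_⟩
  · filter_upwards [a2, b2] with p h1 h2
    exact h1.add h2
  · rw [fderiv_add' a1 b1]
    refine (a3.add b3).congr' ?_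
    filter_upwards [a2, b2] with p h1 h2
    exact (fderiv_add' h1 h2).symm
  · rw [fderiv2_add a1 b1]
    refine (a4.add b4).congr' ?_
    filter_upwards [a2, b2] with p h1 h2
    exact (fderiv2_add h1 h2).symm

theorem fderiv_mul' {f : E → ℝ} {x : E} (c : ℝ) :
    fderiv ℝ (fun x => c * f x) x = c • fderiv ℝ f x := by
  exact congrFun (fderiv_const_smul_field (𝕜 := ℝ) (R := ℝ) (f := f) c) x

theorem fderiv2_mul {f : E → ℝ} {x : E} (c : ℝ) :
    fderiv ℝ (fderiv ℝ (fun x => c * f x)) x = c • fderiv ℝ (fderiv ℝ f) x := by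
  have he : fderiv ℝ (fun x => c * f x) = fun y => c • fderiv ℝ f y := by
    funext y
    exact fderiv_mul' c
  rw [he]
  exact congrFun (fderiv_const_smul_field (𝕜 := ℝ) (R := ℝ) (f := fderiv ℝ f) c) x

theorem TC2.mul {F : ι → E → ℝ} {V : E → ℝ} {x0 : E} {c : ι → ℝ} {c0 : ℝ}
    (hc : Tendsto c l (𝓝 c0)) (hF : TC2 l F V x0) :
    TC2 l (fun i x => c i * F i x) (fun x => c0 * V x) x0 := by
  obtain ⟨a1, a2, a3, a4⟩ := hF
  have hc' : Tendsto (fun p : ι × E => c p.1) (l ×ˢ 𝓝 x0) (𝓝 c0) := hc.comp tendsto_fst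
  refine ⟨contDiffAt_const.mul a1, ?_, ?_, ?_⟩
  · filter_upwards [a2] with p h1
    exact contDiffAt_const.mul h1
  · rw [fderiv_mul']
    refine (hc'.smul a3).congr' ?_
    filter_upwards with p
    exact (fderiv_mul' _).symm
  · rw [fderiv2_mul]
    refine (hc'.smul a4).congr' ?_
    filter_upwards with p
    exact (fderiv2_mul _).symm

theorem TC2.sum {κ : Type*} (s : Finset κ) {F : κ → ι → E → ℝ} {V : κ → E → ℝ} {x0 : E}
    (h : ∀ k ∈ s, TC2 l (F k) (V k) x0) :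
    TC2 l (fun i x => ∑ k ∈ s, F k i x) (fun x => ∑ k ∈ s, V k x) x0 := by
  classical
  induction s using Finset.induction_on with
  | empty =>
    simp only [Finset.sum_empty]
    exact TC2.const contDiffAt_const
  | insert a s ha ih =>
    have h1 : TC2 l (F a) (V a) x0 := h a (Finset.mem_insert_self a s)
    have h2 := ih (fun k hk => h k (Finset.mem_insert_of_mem hk))
    have h3 := h1.add h2
    simpa only [Finset.sum_insert ha] using h3

theorem TC2.comp_tendsto {κ : Type*} {l' : Filter κ} {F : ι → E → ℝ} {V : E → ℝ} {x0 : E}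
    (h : TC2 l F V x0) {φ : κ → ι} (hφ : Tendsto φ l' l) :
    TC2 l' (fun i => F (φ i)) V x0 := by
  obtain ⟨a1, a2, a3, a4⟩ := h
  have ht : Tendsto (fun p : κ × E => (φ p.1, p.2)) (l' ×ˢ 𝓝 x0) (l ×ˢ 𝓝 x0) :=
    hφ.prodMap tendsto_id
  exact ⟨a1, ht.eventually a2, a3.comp ht, a4.comp ht⟩

theorem fderiv_translate (f : E → ℝ) (b x : E) :
    fderiv ℝ (fun x => f (x - b)) x = fderiv ℝ f (x - b) :=
  fderiv_comp_sub (𝕜 := ℝ) (f := f) (x := x) b

theorem fderiv2_translate (f : E → ℝ) (b x : E) :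
    fderiv ℝ (fderiv ℝ (fun x => f (x - b))) x = fderiv ℝ (fderiv ℝ f) (x - b) := by
  have he : fderiv ℝ (fun x => f (x - b)) = fun y => fderiv ℝ f (y - b) := by
    funext y
    exact fderiv_translate f b y
  rw [he]
  exact fderiv_comp_sub (𝕜 := ℝ) (f := fderiv ℝ f) (x := x) b

/-- translated functions -/
theorem TC2.translate {f : E → ℝ} {b : ι → E} {b0 x0 : E} (hb : Tendsto b l (𝓝 b0))
    (hf : ContDiffAt ℝ 2 f (x0 - b0)) :
    TC2 l (fun i x => f (x - b i)) (fun x => f (x - b0)) x0 := by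
  have ht : Tendsto (fun p : ι × E => p.2 - b p.1) (l ×ˢ 𝓝 x0) (𝓝 (x0 - b0)) :=
    tendsto_snd.sub (hb.comp tendsto_fst)
  have hcomp : ∀ (b x : E), ContDiffAt ℝ 2 f (x - b) → ContDiffAt ℝ 2 (fun x => f (x - b)) x := by
    intro b x h
    exact ContDiffAt.comp (g := f) (f := fun x => x - b) x h (contDiffAt_id.sub contDiffAt_const)
  refine ⟨hcomp b0 x0 hf, ?_, ?_, ?_⟩
  · filter_upwards [ht.eventually (cda_ev hf)] with p hp
    exact hcomp _ _ hp
  · rw [fderiv_translate]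
    refine ((cda_cont1 hf).tendsto.comp ht).congr' ?_
    filter_upwards with p
    exact (fderiv_translate f _ _).symm
  · rw [fderiv2_translate]
    refine ((cda_cont2 hf).tendsto.comp ht).congr' ?_
    filter_upwards with p
    exact (fderiv2_translate f _ _).symm

theorem fderiv_scale (V : E → ℝ) (c τ : ℝ) (x : E) :
    fderiv ℝ (fun y => c * V (τ • y)) x = (c * τ) • fderiv ℝ V (τ • x) := by
  rw [fderiv_mul' (f := fun y => V (τ • y))]
  have := fderiv_comp_smul (𝕜 := ℝ) (f := V) (x := x) τ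
  have h2 : fderiv ℝ (fun y => V (τ • y)) x = τ • fderiv ℝ V (τ • x) := this
  rw [h2, smul_smul]

theorem fderiv2_scale (V : E → ℝ) (c τ : ℝ) (x : E) :
    fderiv ℝ (fderiv ℝ (fun y => c * V (τ • y))) x
      = (c * τ * τ) • fderiv ℝ (fderiv ℝ V) (τ • x) := by
  have he : fderiv ℝ (fun y => c * V (τ • y)) = fun y => (c * τ) • fderiv ℝ V (τ • y) := by
    funext y
    exact fderiv_scale V c τ y
  have h0 : fderiv ℝ (fun y => (c * τ) • fderiv ℝ V (τ • y)) x
      = (c * τ) • fderiv ℝ (fun y => fderiv ℝ V (τ • y)) x :=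
    congrFun (fderiv_const_smul_field (𝕜 := ℝ) (R := ℝ) (f := fun y => fderiv ℝ V (τ • y)) (c * τ)) x
  rw [he, h0]
  have := fderiv_comp_smul (𝕜 := ℝ) (f := fderiv ℝ V) (x := x) τ
  have h2 : fderiv ℝ (fun y => fderiv ℝ V (τ • y)) x = τ • fderiv ℝ (fderiv ℝ V) (τ • x) := this
  rw [h2, smul_smul]

/-- rescaling of nondegenerate critical points -/
theorem NDC.rescale {V : E → ℝ} {c τ : ℝ} (hc : c ≠ 0) (hτ : τ ≠ 0) {y : E}
    (h : y ∈ NDC (fun y => c * V (τ • y))) : τ • y ∈ NDC V := by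
  obtain ⟨h1, h2, h3⟩ := h
  refine ⟨?_, ?_, ?_⟩
  · have hinv : ContDiffAt ℝ 2 (fun z : E => τ⁻¹ • z) (τ • y) := contDiffAt_id.const_smul τ⁻¹
    have hy : τ⁻¹ • (τ • y) = y := inv_smul_smul₀ hτ y
    have h1' : ContDiffAt ℝ 2 (fun y => c * V (τ • y)) (τ⁻¹ • (τ • y)) := by rw [hy]; exact h1
    have h4 : ContDiffAt ℝ 2 (fun z : E => c⁻¹ * (c * V (τ • (τ⁻¹ • z)))) (τ • y) :=
      contDiffAt_const.mul (ContDiffAt.comp (g := fun y => c * V (τ • y))
        (f := fun z : E => τ⁻¹ • z) (τ • y) h1' hinv)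
    have h5 : (fun z : E => c⁻¹ * (c * V (τ • (τ⁻¹ • z)))) = V := by
      funext z
      rw [smul_inv_smul₀ hτ, ← mul_assoc, inv_mul_cancel₀ hc, one_mul]
    rwa [h5] at h4
  · rw [fderiv_scale] at h2
    exact (smul_eq_zero.1 h2).resolve_left (mul_ne_zero hc hτ)
  · intro v hv
    apply h3 v
    rw [fderiv2_scale, smul_apply, hv, smul_zero]

end Persist

end PC992
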