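import Mathlib
import Pool.Agent.Work.MP_992d6e_an.Model
import Pool.Agent.Work.MP_992d6e_an.Persist

/-!
MP_992d6e_an, cubic lower bound: the induction over the multipole levels.
-/

namespace PC992

open Filter Topology Polynomial

noncomputable section

/-- multi-scale sum of axial multipoles -/
def H (c : ℕ → ℝ) (m : ℕ) (x : E) : ℝ := ∑ k ∈ Finset.range (m + 1), c k * Ek k (ax k) x

/-- number of critical points obtained -/
def NN (M : ℕ) : ℕ := ∑ k ∈ Finset.range M, K k * K (k + 1)

def ey : E := EuclideanSpace.single 1 1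

lemma frame_zx : Frame ez ex ey := by
  constructor <;> simp [ez, ex, ey, EuclideanSpace.inner_single_left, PiLp.single_apply]
  intro v h1 h2 h3
  ext i
  fin_cases i <;> simp_all

lemma frame_xz : Frame ex ez ey := by
  constructor <;> simp [ez, ex, ey, EuclideanSpace.inner_single_left, PiLp.single_apply]
  intro v h1 h2 h3
  ext i
  fin_cases i <;> simp_all

lemma frame_ax (m : ℕ) : Frame (ax m) (ax (m + 1)) ey := by
  unfold ax
  rcases Nat.even_or_odd m with h | h
  · have h' : ¬ Even (m + 1) := by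
      rw [Nat.not_even_iff_odd]
      exact h.add_one
    rw [if_pos h, if_neg h']
    exact frame_zx
  · have h' : Even (m + 1) := h.add_one
    rw [if_neg (Nat.not_even_iff_odd.mpr h), if_pos h']
    exact frame_xz

lemma exists_small (S : Finset E) (hS : ∀ x ∈ S, x ≠ 0) : ∃ δ : ℝ, 0 < δ ∧ ∀ x ∈ S, δ < ‖x‖ := by
  classical
  induction S using Finset.induction_on with
  | empty => exact ⟨1, one_pos, by simp⟩
  | insert a s ha ih =>
    obtain ⟨δ, hδ, h⟩ := ih (fun x hx => hS x (Finset.mem_insert_of_mem hx))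
    have ha0 : 0 < ‖a‖ := norm_pos_iff.mpr (hS a (Finset.mem_insert_self _ _))
    refine ⟨min δ (‖a‖ / 2), lt_min hδ (by linarith), fun x hx => ?_⟩
    rcases Finset.mem_insert.mp hx with h1 | h1
    · subst h1
      exact lt_of_le_of_lt (min_le_right _ _) (by linarith)
    · exact lt_of_le_of_lt (min_le_left _ _) (h x h1)

lemma exists_big (S : Finset E) : ∃ R : ℝ, 0 < R ∧ ∀ x ∈ S, ‖x‖ < R := by
  classical
  induction S using Finset.induction_on with
  | empty => exact ⟨1, one_pos, by simp⟩
  | insert a s ha ih =>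
    obtain ⟨R, hR, h⟩ := ih
    refine ⟨max R (‖a‖ + 1), lt_max_of_lt_left hR, fun x hx => ?_⟩
    rcases Finset.mem_insert.mp hx with h1 | h1
    · subst h1
      exact lt_of_lt_of_le (by linarith) (le_max_right _ _)
    · exact lt_of_lt_of_le (h x h1) (le_max_left _ _)

lemma H_contDiffAt (c : ℕ → ℝ) (m : ℕ) {x : E} (hx : x ≠ 0) : ContDiffAt ℝ 2 (H c m) x := by
  unfold H
  exact ContDiffAt.sum fun k _ => contDiffAt_const.mul (Ek_contDiffAt k (ax k) hx 2)

theorem chain (M : ℕ) : ∃ c : ℕ → ℝ, c M ≠ 0 ∧ ∃ S : Finset E, NN M ≤ S.card ∧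
    ∀ x ∈ S, x ≠ 0 ∧ x ∈ NDC (H c M) := by
  classical
  induction M with
  | zero => exact ⟨fun _ => 1, one_ne_zero, ∅, by simp [NN], by simp⟩
  | succ M ih =>
    obtain ⟨c, hcM, S, hScard, hS⟩ := ih
    obtain ⟨σ, hσ, S', hS'card, hS'⟩ := model M (frame_ax M) hcM
    obtain ⟨δ, hδ, hδS⟩ := exists_small S (fun x hx => (hS x hx).1)
    obtain ⟨R, hR, hRS⟩ := exists_big S'
    set f := ax (M + 1) with hf
    let F : ℝ → E → ℝ := fun τ x => H c M x + (σ * τ) * Ek (M + 1) f x
    let G : ℝ → E → ℝ := fun τ y =>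
      (∑ k ∈ Finset.range (M + 1), (c k * τ ^ (M - k)) * Ek k (ax k) y) + σ * Ek (M + 1) f y
    have hF : ∀ x ∈ S, x ∈ NDC (H c M) ∧ TC2 (𝓝[>] (0 : ℝ)) F (H c M) x ∧
        {x : E | δ < ‖x‖} ∈ 𝓝 x := by
      intro x hx
      refine ⟨(hS x hx).2, ?_, (isOpen_lt continuous_const continuous_norm).mem_nhds (hδS x hx)⟩
      have h1 : TC2 (𝓝[>] (0 : ℝ)) (fun _ => H c M) (H c M) x :=
        TC2.const (H_contDiffAt c M (hS x hx).1)
      have h2 : TC2 (𝓝[>] (0 : ℝ)) (fun _ => Ek (M + 1) f) (Ek (M + 1) f) x :=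
        TC2.const (Ek_contDiffAt (M + 1) f (hS x hx).1 2)
      have h3 : Tendsto (fun τ : ℝ => σ * τ) (𝓝[>] (0 : ℝ)) (𝓝 0) := by
        have : Tendsto (fun τ : ℝ => σ * τ) (𝓝 0) (𝓝 (σ * 0)) :=
          (continuous_const.mul continuous_id).tendsto 0
        rw [mul_zero] at this
        exact this.mono_left nhdsWithin_le_nhds
      have h4 := h1.add (h2.mul h3)
      have h5 : (fun x => H c M x + 0 * Ek (M + 1) f x) = H c M := by
        funext y
        ring
      rw [h5] at h4
      exact h4
    have hG : ∀ y ∈ S', y ∈ NDC (fun x => c M * Ek M (ax M) x + σ * Ek (M + 1) f x) ∧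
        TC2 (𝓝[>] (0 : ℝ)) G (fun x => c M * Ek M (ax M) x + σ * Ek (M + 1) f x) y ∧
        {y : E | y ≠ 0 ∧ ‖y‖ < R} ∈ 𝓝 y := by
      intro y hy
      have hy0 := (hS' y hy).1
      refine ⟨(hS' y hy).2, ?_, (isOpen_ne.inter (isOpen_lt continuous_norm
        continuous_const)).mem_nhds ⟨hy0, hRS y hy⟩⟩
      have h1 : ∀ k ∈ Finset.range (M + 1), TC2 (𝓝[>] (0 : ℝ))
          (fun τ x => (c k * τ ^ (M - k)) * Ek k (ax k) x)
          (fun x => (if k = M then c M else 0) * Ek k (ax k) x) y := by
        intro k hk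
        rw [Finset.mem_range] at hk
        refine TC2.mul ?_ (TC2.const (Ek_contDiffAt k (ax k) hy0 2))
        by_cases hkM : k = M
        · subst hkM
          simp
        · rw [if_neg hkM]
          have h0 : M - k ≠ 0 := by omega
          have : Tendsto (fun τ : ℝ => c k * τ ^ (M - k)) (𝓝 0) (𝓝 (c k * 0 ^ (M - k))) :=
            (continuous_const.mul (continuous_pow _)).tendsto 0
          rw [zero_pow h0, mul_zero] at this
          exact this.mono_left nhdsWithin_le_nhds
      have h2 : TC2 (𝓝[>] (0 : ℝ)) (fun _ x => σ * Ek (M + 1) f x)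
          (fun x => σ * Ek (M + 1) f x) y :=
        TC2.const (contDiffAt_const.mul (Ek_contDiffAt (M + 1) f hy0 2))
      have h3 := (TC2.sum (Finset.range (M + 1)) h1).add h2
      have h4 : (fun x => (∑ k ∈ Finset.range (M + 1),
          (if k = M then c M else 0) * Ek k (ax k) x) + σ * Ek (M + 1) f x) =
          fun x => c M * Ek M (ax M) x + σ * Ek (M + 1) f x := by
        funext x
        congr 1
        rw [Finset.sum_eq_single M]
        · simp
        · intro k _ hk
          simp [hk]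
        · intro h
          exact absurd (Finset.mem_range.mpr (Nat.lt_succ_self M)) h
      rw [h4] at h3
      exact h3
    have e1 := persist_finset S {x : E | δ < ‖x‖} hF
    have e2 := persist_finset S' {y : E | y ≠ 0 ∧ ‖y‖ < R} hG
    have e3 : ∀ᶠ τ : ℝ in 𝓝[>] (0 : ℝ), 0 < τ := eventually_mem_nhdsWithin
    have e4 : ∀ᶠ τ : ℝ in 𝓝[>] (0 : ℝ), τ < δ / R :=
      mem_nhdsWithin_of_mem_nhds (Iio_mem_nhds (by positivity))
    obtain ⟨τ, ⟨T1, hT1c, hT1⟩, ⟨T2, hT2c, hT2⟩, hτ, hτR⟩ := (e1.and (e2.and (e3.and e4))).exists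
    have hτ0 : τ ≠ 0 := hτ.ne'
    have hGF : G τ = fun y => τ ^ (M + 1) * F τ (τ • y) := by
      funext y
      simp only [G, F, H]
      rw [mul_add, Finset.mul_sum]
      congr 1
      · apply Finset.sum_congr rfl
        intro k hk
        rw [Finset.mem_range] at hk
        rw [Ek_smul k (ax k) y hτ]
        have : τ ^ (M + 1) = τ ^ (M - k) * τ ^ (k + 1) := by
          rw [← pow_add]
          congr 1
          omega
        rw [this]
        field_simp
      · rw [Ek_smul (M + 1) f y hτ, pow_succ τ (M + 1)]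
        field_simp
    have hinj : Set.InjOn (fun y : E => τ • y) (T2 : Set E) := by
      intro a _ b _ h
      exact smul_right_injective E hτ0 h
    have hnew : ∀ x ∈ T2.image (fun y : E => τ • y), x ≠ 0 ∧ ‖x‖ < δ ∧ x ∈ NDC (F τ) := by
      intro x hx
      obtain ⟨y, hy, rfl⟩ := Finset.mem_image.mp hx
      obtain ⟨⟨hy0, hyR⟩, hyN⟩ := hT2 y hy
      refine ⟨smul_ne_zero hτ0 hy0, ?_, ?_⟩
      · show ‖τ • y‖ < δ
        rw [norm_smul, Real.norm_of_nonneg hτ.le]
        calc τ * ‖y‖ ≤ τ * R := by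
              apply mul_le_mul_of_nonneg_left hyR.le hτ.le
          _ < δ / R * R := by
              apply mul_lt_mul_of_pos_right hτR hR
          _ = δ := by field_simp
      · rw [hGF] at hyN
        exact NDC.rescale (pow_ne_zero _ hτ0) hτ0 hyN
    have hdisj : Disjoint T1 (T2.image (fun y : E => τ • y)) := by
      rw [Finset.disjoint_left]
      intro x h1 h2
      have h3 := (hT1 x h1).1
      have h4 := (hnew x h2).2.1
      simp only [Set.mem_setOf_eq] at h3
      linarith
    have hFH : F τ = H (Function.update c (M + 1) (σ * τ)) (M + 1) := by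
      funext x
      simp only [F, H]
      rw [Finset.sum_range_succ _ (M + 1)]
      congr 1
      · apply Finset.sum_congr rfl
        intro k hk
        rw [Finset.mem_range] at hk
        rw [Function.update_of_ne (by omega)]
      · rw [Function.update_self]
    refine ⟨Function.update c (M + 1) (σ * τ), ?_, T1 ∪ T2.image (fun y : E => τ • y), ?_, ?_⟩
    · rw [Function.update_self]
      exact mul_ne_zero hσ hτ0
    · rw [Finset.card_union_of_disjoint hdisj, Finset.card_image_of_injOn hinj, hT1c, hT2c]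
      have : NN (M + 1) = NN M + K M * K (M + 1) := by
        unfold NN
        rw [Finset.sum_range_succ]
      omega
    · intro x hx
      rw [← hFH]
      rcases Finset.mem_union.mp hx with h | h
      · obtain ⟨h1, h2⟩ := hT1 x h
        refine ⟨?_, h2⟩
        simp only [Set.mem_setOf_eq] at h1
        intro h0
        rw [h0, norm_zero] at h1
        linarith
      · exact ⟨(hnew x h).1, (hnew x h).2.2⟩

lemma NN_lower (M : ℕ) (hM : 6 ≤ M) : 16 * (M - 6) ^ 3 ≤ 243 * NN M := by
  induction M, hM using Nat.le_induction with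
  | base => simp
  | succ M hM ih =>
    have hN : NN (M + 1) = NN M + K M * K (M + 1) := by
      unfold NN
      rw [Finset.sum_range_succ]
    have h1 : 4 * M ≤ 9 * K M + 17 := by unfold K; omega
    have h2 : 4 * M ≤ 9 * K (M + 1) + 13 := by unfold K; omega
    obtain ⟨m, rfl⟩ : ∃ m, M = m + 6 := ⟨M - 6, by omega⟩
    have e1 : m + 6 - 6 = m := by omega
    have e2 : m + 6 + 1 - 6 = m + 1 := by omega
    rw [e1] at ih
    rw [e2, hN]
    have h3 : (4 * m + 7) * (4 * m + 11) ≤ (9 * K (m + 6)) * (9 * K (m + 6 + 1)) :=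
      Nat.mul_le_mul (by omega) (by omega)
    nlinarith

end

end PC992
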