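import Mathlib
import Pool.Agent.Work.MP_992d6e_an.Defs
import Pool.Agent.Work.MP_992d6e_an.Mult

/-!
MP_992d6e_an: finite differences of the Coulomb potential converge to the multipoles.
-/

namespace PC992

open Filter Topology

section fd

variable {F : Type*} [NormedAddCommGroup F] [NormedSpace ℝ F]

theorem fd_close (k : ℕ) : ∀ (g : ℕ → ℝ → F) (s h C : ℝ) (v : F), 0 < h →
    (∀ i < k, ∀ t ∈ Set.Icc s (s + k * h), HasDerivAt (g i) (g (i + 1) t) t) →
    (∀ t ∈ Set.Icc s (s + k * h), ‖g k t - v‖ ≤ C) →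
    ‖(h ^ k)⁻¹ • (fwdDiff h)^[k] (g 0) s - v‖ ≤ C := by
  induction k with
  | zero =>
    intro g s h C v hh _ h2
    simpa using h2 s (by simp)
  | succ k ih =>
    intro g s h C v hh h1 h2
    have hkey := ih (fun i t => h⁻¹ • (g i (t + h) - g i t)) s h C v hh ?_ ?_
    · have e1 : (fwdDiff h)^[k + 1] (g 0) s
          = h • (fwdDiff h)^[k] (fun t => h⁻¹ • (g 0 (t + h) - g 0 t)) s := by
        rw [Function.iterate_succ_apply]
        have e2 : fwdDiff h (g 0) = h • (fun t => h⁻¹ • (g 0 (t + h) - g 0 t)) := by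
          funext t
          simp only [fwdDiff, Pi.smul_apply]
          rw [smul_smul, mul_inv_cancel₀ hh.ne', one_smul]
        rw [e2, fwdDiff_iter_const_smul]
        rfl
      rw [e1, smul_smul]
      have e3 : (h ^ (k + 1))⁻¹ * h = (h ^ k)⁻¹ := by
        rw [pow_succ, mul_inv, mul_assoc, inv_mul_cancel₀ hh.ne', mul_one]
      rw [e3]
      exact hkey
    · intro i hi t ht
      have ht1 : t ∈ Set.Icc s (s + (k + 1 : ℕ) * h) := by
        refine ⟨ht.1, ht.2.trans ?_⟩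
        push_cast
        nlinarith
      have ht2 : t + h ∈ Set.Icc s (s + (k + 1 : ℕ) * h) := by
        refine ⟨by linarith [ht.1], ?_⟩
        have := ht.2
        push_cast
        nlinarith
      have a1 := h1 i (by omega) t ht1
      have a2 := h1 i (by omega) (t + h) ht2
      have a3 : HasDerivAt (fun u => g i (u + h)) (g (i + 1) (t + h)) t :=
        a2.comp_add_const t h
      exact (a3.sub a1).const_smul h⁻¹
    · intro t ht
      have hsub : Set.Icc t (t + h) ⊆ Set.Icc s (s + (k + 1 : ℕ) * h) := by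
        intro u hu
        refine ⟨ht.1.trans hu.1, hu.2.trans ?_⟩
        have := ht.2
        push_cast
        nlinarith
      have hφ : ∀ u ∈ Set.Icc t (t + h),
          HasDerivWithinAt (fun u => g k u - u • v) (g (k + 1) u - v) (Set.Icc t (t + h)) u := by
        intro u hu
        have b1 := (h1 k (by omega) u (hsub hu)).hasDerivWithinAt (s := Set.Icc t (t + h))
        have b2 : HasDerivWithinAt (fun u : ℝ => u • v) ((1 : ℝ) • v) (Set.Icc t (t + h)) u :=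
          ((hasDerivAt_id u).smul_const v).hasDerivWithinAt
        rw [one_smul] at b2
        exact b1.sub b2
      have hb := (convex_Icc t (t + h)).norm_image_sub_le_of_norm_hasDerivWithin_le hφ
        (fun u hu => h2 u (hsub hu)) (Set.left_mem_Icc.mpr (by linarith))
        (Set.right_mem_Icc.mpr (by linarith))
      have e4 : g k (t + h) - (t + h) • v - (g k t - t • v) = h • (h⁻¹ • (g k (t + h) - g k t) - v) := by
        rw [smul_sub, smul_smul, mul_inv_cancel₀ hh.ne', one_smul, add_smul]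
        abel
      rw [e4, norm_smul] at hb
      have e5 : ‖t + h - t‖ = h := by
        rw [add_sub_cancel_left, Real.norm_eq_abs, abs_of_pos hh]
      rw [e5, Real.norm_eq_abs, abs_of_pos hh, mul_comm C h] at hb
      exact le_of_mul_le_mul_left hb hh

/-- the finite difference operator -/
noncomputable def FDop (k : ℕ) (e : E) (g : E → F) (h : ℝ) (x : E) : F :=
  (h ^ k)⁻¹ • ∑ j ∈ Finset.range (k + 1), ((-1 : ℝ) ^ (k - j) * (k.choose j : ℝ)) •
    g (x + (((j : ℝ) + 1) * h) • e)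

theorem FDop_eq (k : ℕ) (e : E) (g : E → F) (h : ℝ) (x : E) :
    FDop k e g h x = (h ^ k)⁻¹ • (fwdDiff h)^[k] (fun t : ℝ => g (x + t • e)) h := by
  rw [FDop, fwdDiff_iter_eq_sum_shift]
  congr 1
  refine Finset.sum_congr rfl fun j _ => ?_
  have e1 : h + j • h = ((j : ℝ) + 1) * h := by
    rw [nsmul_eq_mul]; ring
  rw [e1]
  have e2 : ((-1 : ℝ) ^ (k - j) * (k.choose j : ℝ))
      = (((-1 : ℤ) ^ (k - j) * (k.choose j : ℤ) : ℤ) : ℝ) := by
    push_cast; ring
  rw [e2, Int.cast_smul_eq_zsmul]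

/-- shifted points stay close -/
theorem shift_close {k : ℕ} {e : E} (he : ‖e‖ = 1) {x x0 : E} {h δ t : ℝ} (hh : 0 < h)
    (hx : ‖x - x0‖ < δ / 2) (hhk : ((k : ℝ) + 1) * h < δ / 2)
    (ht : t ∈ Set.Icc h (h + k * h)) : ‖x + t • e - x0‖ < δ := by
  have h1 : x + t • e - x0 = (x - x0) + t • e := by abel
  rw [h1]
  refine (norm_add_le _ _).trans_lt ?_
  rw [norm_smul, he, mul_one, Real.norm_eq_abs, abs_of_nonneg (by linarith [ht.1])]
  have := ht.2
  nlinarith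

theorem FD_tendsto (k : ℕ) {e : E} (he : ‖e‖ = 1) {x0 : E} (hx0 : x0 ≠ 0) (g : ℕ → E → F)
    (hg : ∀ i, ∀ y, y ≠ 0 → ∃ L : E →L[ℝ] F, HasFDerivAt (g i) L y ∧ L e = g (i + 1) y)
    (hc : ContinuousAt (g k) x0) :
    Tendsto (fun p : ℝ × E => FDop k e (g 0) p.1 p.2) (𝓝[>] (0 : ℝ) ×ˢ 𝓝 x0) (𝓝 (g k x0)) := by
  rw [Metric.tendsto_nhds]
  intro ε hε
  obtain ⟨δ, hδ, hball⟩ := Metric.continuousAt_iff.mp hc (ε / 2) (half_pos hε)
  set δ' := min δ ‖x0‖ with hδ'
  have hδ'0 : 0 < δ' := lt_min hδ (norm_pos_iff.mpr hx0)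
  have e1 : ∀ᶠ h : ℝ in 𝓝[>] (0 : ℝ), 0 < h ∧ ((k : ℝ) + 1) * h < δ' / 2 := by
    refine (eventually_mem_nhdsWithin).and ?_
    refine Filter.Eventually.filter_mono nhdsWithin_le_nhds ?_
    have : Tendsto (fun h : ℝ => ((k : ℝ) + 1) * h) (𝓝 0) (𝓝 (((k : ℝ) + 1) * 0)) :=
      (continuous_const.mul continuous_id).tendsto 0
    rw [mul_zero] at this
    exact this.eventually (gt_mem_nhds (by positivity))
  have e2 : ∀ᶠ x : E in 𝓝 x0, ‖x - x0‖ < δ' / 2 := by
    have := Metric.ball_mem_nhds x0 (show 0 < δ' / 2 by positivity)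
    filter_upwards [this] with x hx
    rwa [Metric.mem_ball, dist_eq_norm] at hx
  filter_upwards [e1.prod_mk e2] with p hp
  obtain ⟨⟨hh, hhk⟩, hx⟩ := hp
  rw [dist_eq_norm, FDop_eq]
  have hpt : ∀ t ∈ Set.Icc p.1 (p.1 + k * p.1), ‖p.2 + t • e - x0‖ < δ' := fun t ht =>
    shift_close he hh hx hhk ht
  have hne : ∀ t ∈ Set.Icc p.1 (p.1 + k * p.1), p.2 + t • e ≠ 0 := by
    intro t ht h0
    have := hpt t ht
    rw [h0, zero_sub, norm_neg] at this
    exact absurd this (not_lt.mpr (min_le_right _ _))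
  have := fd_close k (fun i t => g i (p.2 + t • e)) p.1 p.1 (ε / 2) (g k x0) hh ?_ ?_
  · exact this.trans_lt (by linarith)
  · intro i _ t ht
    obtain ⟨L, hL, hLe⟩ := hg i _ (hne t ht)
    have hlin : HasDerivAt (fun t : ℝ => p.2 + t • e) e t := by
      have := ((hasDerivAt_id t).smul_const e).const_add p.2
      simpa using this
    have := hL.comp_hasDerivAt t hlin
    rw [hLe] at this
    exact this
  · intro t ht
    have := hball (x := p.2 + t • e) (by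
      rw [dist_eq_norm]
      exact (hpt t ht).trans_le (min_le_left _ _))
    rw [dist_eq_norm] at this
    exact this.le

theorem fderiv_comm {f f1 : E → F} {y e : E} (hf : ContDiffAt ℝ 2 f y)
    (h1 : ∀ᶠ z in 𝓝 y, fderiv ℝ f z e = f1 z) :
    fderiv ℝ (fderiv ℝ f) y e = fderiv ℝ f1 y := by
  have hs := hf.isSymmSndFDerivAt (by simp)
  have hd : DifferentiableAt ℝ (fderiv ℝ f) y :=
    (hf.fderiv_right (m := 1) (by norm_num)).differentiableAt (by norm_num)
  ext v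
  rw [hs.eq e v]
  have h2 : fderiv ℝ f1 y = fderiv ℝ (fun z => fderiv ℝ f z e) y :=
    (Filter.EventuallyEq.fderiv_eq h1).symm
  rw [h2, fderiv_clm_apply hd (differentiableAt_const e)]
  simp

theorem FDop_hasFDerivAt {k : ℕ} {e : E} {g : E → F} {g' : E → E →L[ℝ] F} {h : ℝ} {x : E}
    (hg : ∀ j ∈ Finset.range (k + 1), HasFDerivAt g (g' (x + (((j : ℝ) + 1) * h) • e))
      (x + (((j : ℝ) + 1) * h) • e)) :
    HasFDerivAt (FDop k e g h) (FDop k e g' h x) x := by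
  unfold FDop
  refine HasFDerivAt.const_smul ?_ _
  refine HasFDerivAt.fun_sum fun j hj => ?_
  refine HasFDerivAt.const_smul ?_ _
  exact (hasFDerivAt_comp_add_right _).mpr (hg j hj)

end fd

theorem Ek_eventually_dir (k : ℕ) {e : E} (he : ‖e‖ = 1) {x : E} (hx : x ≠ 0) :
    ∀ᶠ z in 𝓝 x, fderiv ℝ (Ek k e) z e = Ek (k + 1) e z := by
  filter_upwards [isOpen_ne.mem_nhds hx] with z hz
  exact Ek_dir k he hz

theorem Ek_fderiv_dir (k : ℕ) {e : E} (he : ‖e‖ = 1) {x : E} (hx : x ≠ 0) :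
    fderiv ℝ (fderiv ℝ (Ek k e)) x e = fderiv ℝ (Ek (k + 1) e) x :=
  fderiv_comm (Ek_contDiffAt k e hx 2) (Ek_eventually_dir k he hx)

theorem Ek_fderiv2_dir (k : ℕ) {e : E} (he : ‖e‖ = 1) {x : E} (hx : x ≠ 0) :
    fderiv ℝ (fderiv ℝ (fderiv ℝ (Ek k e))) x e = fderiv ℝ (fderiv ℝ (Ek (k + 1) e)) x := by
  refine fderiv_comm ((Ek_contDiffAt k e hx 3).fderiv_right (m := 2) (by norm_num)) ?_
  filter_upwards [isOpen_ne.mem_nhds hx] with z hz
  exact Ek_fderiv_dir k he hz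

theorem shift_ne_zero {k : ℕ} {e : E} (he : ‖e‖ = 1) {x0 : E} (hx0 : x0 ≠ 0) :
    ∀ᶠ p : ℝ × E in 𝓝[>] (0 : ℝ) ×ˢ 𝓝 x0,
      ∀ j ∈ Finset.range (k + 1), p.2 + (((j : ℝ) + 1) * p.1) • e ≠ 0 := by
  have hpos : 0 < ‖x0‖ := norm_pos_iff.mpr hx0
  have e1 : ∀ᶠ h : ℝ in 𝓝[>] (0 : ℝ), 0 < h ∧ ((k : ℝ) + 1) * h < ‖x0‖ / 2 := by
    refine (eventually_mem_nhdsWithin).and ?_
    refine Filter.Eventually.filter_mono nhdsWithin_le_nhds ?_
    have : Tendsto (fun h : ℝ => ((k : ℝ) + 1) * h) (𝓝 0) (𝓝 (((k : ℝ) + 1) * 0)) :=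
      (continuous_const.mul continuous_id).tendsto 0
    rw [mul_zero] at this
    exact this.eventually (gt_mem_nhds (by positivity))
  have e2 : ∀ᶠ x : E in 𝓝 x0, ‖x - x0‖ < ‖x0‖ / 2 := by
    have := Metric.ball_mem_nhds x0 (show 0 < ‖x0‖ / 2 by positivity)
    filter_upwards [this] with x hx
    rwa [Metric.mem_ball, dist_eq_norm] at hx
  filter_upwards [e1.prod_mk e2] with p hp j hj h0
  obtain ⟨⟨hh, hhk⟩, hx⟩ := hp
  have hj' : (j : ℝ) ≤ k := by
    have := Finset.mem_range.mp hj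
    exact_mod_cast Nat.lt_succ_iff.mp this
  have := shift_close (k := k) he hh hx hhk (t := ((j : ℝ) + 1) * p.1)
    ⟨by nlinarith [Nat.cast_nonneg (α := ℝ) j], by nlinarith⟩
  rw [h0, zero_sub, norm_neg] at this
  exact lt_irrefl _ this

theorem fd_eq_FDop (k : ℕ) (e : E) (h : ℝ) :
    (fun x : E => (h ^ k)⁻¹ *
      ∑ j ∈ Finset.range (k + 1), (-1) ^ (k - j) * (k.choose j : ℝ) *
        ‖x + (((j : ℝ) + 1) * h) • e‖⁻¹) = FDop k e (Ek 0 e) h := by
  funext x
  unfold FDop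
  rw [smul_eq_mul]
  congr 1
  refine Finset.sum_congr rfl fun j _ => ?_
  rw [smul_eq_mul, Ek_zero]

theorem fd_conv (k : ℕ) {e : E} (he : ‖e‖ = 1) {x0 : E} (hx0 : x0 ≠ 0) :
    TC2 (𝓝[>] (0 : ℝ)) (fun h x => (h ^ k)⁻¹ *
      ∑ j ∈ Finset.range (k + 1), (-1) ^ (k - j) * (k.choose j : ℝ) *
        ‖x + (((j : ℝ) + 1) * h) • e‖⁻¹) (Ek k e) x0 := by
  have hopen : ∀ (h : ℝ), IsOpen {x : E | ∀ j ∈ Finset.range (k + 1),
      x + (((j : ℝ) + 1) * h) • e ≠ 0} := by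
    intro h
    have : {x : E | ∀ j ∈ Finset.range (k + 1), x + (((j : ℝ) + 1) * h) • e ≠ 0}
        = ⋂ j ∈ Finset.range (k + 1), {x : E | x + (((j : ℝ) + 1) * h) • e ≠ 0} := by
      ext x; simp
    rw [this]
    refine isOpen_biInter_finset fun j _ => ?_
    exact isOpen_ne.preimage (by fun_prop)
  have hdiff : ∀ {x : E}, x ≠ 0 → ∀ i, HasFDerivAt (Ek i e) (fderiv ℝ (Ek i e) x) x := by
    intro x hx i
    exact ((Ek_contDiffAt i e hx 1).differentiableAt (by norm_num)).hasFDerivAt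
  have hdiff2 : ∀ {x : E}, x ≠ 0 → ∀ i,
      HasFDerivAt (fderiv ℝ (Ek i e)) (fderiv ℝ (fderiv ℝ (Ek i e)) x) x := by
    intro x hx i
    exact (((Ek_contDiffAt i e hx 2).fderiv_right (m := 1) (by norm_num)).differentiableAt
      (by norm_num)).hasFDerivAt
  have hdiff3 : ∀ {x : E}, x ≠ 0 → ∀ i,
      HasFDerivAt (fderiv ℝ (fderiv ℝ (Ek i e))) (fderiv ℝ (fderiv ℝ (fderiv ℝ (Ek i e))) x) x := by
    intro x hx i
    exact ((((Ek_contDiffAt i e hx 3).fderiv_right (m := 2) (by norm_num)).fderiv_right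
      (m := 1) (by norm_num)).differentiableAt (by norm_num)).hasFDerivAt
  have hf1 : ∀ (h : ℝ) (x : E), (∀ j ∈ Finset.range (k + 1), x + (((j : ℝ) + 1) * h) • e ≠ 0) →
      fderiv ℝ (FDop k e (Ek 0 e) h) x = FDop k e (fderiv ℝ (Ek 0 e)) h x := by
    intro h x hx
    exact (FDop_hasFDerivAt fun j hj => hdiff (hx j hj) 0).fderiv
  have hf2 : ∀ (h : ℝ) (x : E), (∀ j ∈ Finset.range (k + 1), x + (((j : ℝ) + 1) * h) • e ≠ 0) →
      fderiv ℝ (fderiv ℝ (FDop k e (Ek 0 e) h)) x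
        = FDop k e (fderiv ℝ (fderiv ℝ (Ek 0 e))) h x := by
    intro h x hx
    have heq : fderiv ℝ (FDop k e (Ek 0 e) h) =ᶠ[𝓝 x] FDop k e (fderiv ℝ (Ek 0 e)) h := by
      filter_upwards [(hopen h).mem_nhds hx] with z hz
      exact hf1 h z hz
    rw [heq.fderiv_eq]
    exact (FDop_hasFDerivAt fun j hj => hdiff2 (hx j hj) 0).fderiv
  refine ⟨Ek_contDiffAt k e hx0 2, ?_, ?_, ?_⟩
  · filter_upwards [shift_ne_zero (k := k) he hx0] with p hp
    simp only [fd_eq_FDop]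
    unfold FDop
    refine ContDiffAt.const_smul _ (ContDiffAt.sum fun j hj => ContDiffAt.const_smul _ ?_)
    have h1 := Ek_contDiffAt 0 e (hp j hj) 2
    have h2 : ContDiffAt ℝ 2 (fun x : E => x + (((j : ℝ) + 1) * p.1) • e) p.2 :=
      contDiffAt_id.add contDiffAt_const
    exact ContDiffAt.comp (g := Ek 0 e) p.2 h1 h2
  · have h1 := FD_tendsto k he hx0 (fun i => fderiv ℝ (Ek i e)) (fun i y hy =>
      ⟨_, hdiff2 hy i, Ek_fderiv_dir i he hy⟩) (hdiff2 hx0 k).continuousAt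
    refine h1.congr' ?_
    filter_upwards [shift_ne_zero (k := k) he hx0] with p hp
    simp only [fd_eq_FDop]
    exact (hf1 p.1 p.2 hp).symm
  · have h1 := FD_tendsto k he hx0 (fun i => fderiv ℝ (fderiv ℝ (Ek i e))) (fun i y hy =>
      ⟨_, hdiff3 hy i, Ek_fderiv2_dir i he hy⟩) (hdiff3 hx0 k).continuousAt
    refine h1.congr' ?_
    filter_upwards [shift_ne_zero (k := k) he hx0] with p hp
    simp only [fd_eq_FDop]
    exact (hf2 p.1 p.2 hp).symm

end PC992
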