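import Mathlib
import Pool.Agent.Work.MP_992d6e_an.Defs

/-!
# A Sard argument for the last charge
-/

namespace PC992

open Filter Topology Polynomial MeasureTheory

namespace Sard

/-- the vector representing a linear form -/
noncomputable def L : (E →L[ℝ] ℝ) →L[ℝ] E :=
  LinearMap.toContinuousLinearMap
    { toFun := fun φ => WithLp.toLp 2 (fun i => φ (EuclideanSpace.single i 1))
      map_add' := by
        intro φ ψ
        ext i
        simp
      map_smul' := by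
        intro c φ
        ext i
        simp }

theorem L_apply (φ : E →L[ℝ] ℝ) (i : Fin 3) : L φ i = φ (EuclideanSpace.single i 1) := rfl

theorem L_inner (w : E) : L (innerSL ℝ w) = w := by
  ext i
  rw [L_apply, innerSL_apply_apply, EuclideanSpace.inner_single_right]
  simp

/-- the field of a unit charge -/
noncomputable def θ (z : E) : E := (‖z‖ ^ 3)⁻¹ • z

/-- its inverse -/
noncomputable def κ (g : E) : E := (‖g‖ * √‖g‖)⁻¹ • g

theorem κ_θ {z : E} (hz : z ≠ 0) : κ (θ z) = z := by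
  have hn : 0 < ‖z‖ := norm_pos_iff.2 hz
  have h1 : ‖θ z‖ = (‖z‖⁻¹) ^ 2 := by
    rw [θ, norm_smul, norm_inv, norm_pow, norm_norm]
    field_simp
  have h2 : √‖θ z‖ = ‖z‖⁻¹ := by
    rw [h1, Real.sqrt_sq (by positivity)]
  rw [κ, h2, h1, θ, smul_smul]
  have : ((‖z‖⁻¹) ^ 2 * ‖z‖⁻¹)⁻¹ * (‖z‖ ^ 3)⁻¹ = 1 := by
    field_simp
  rw [this, one_smul]

theorem θ_ne {z : E} (hz : z ≠ 0) : θ z ≠ 0 := by
  have hn : 0 < ‖z‖ := norm_pos_iff.2 hz
  exact smul_ne_zero (by positivity) hz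

theorem norm_diff {z : E} (hz : z ≠ 0) : DifferentiableAt ℝ (fun z : E => ‖z‖) z :=
  differentiableAt_id.norm ℝ hz

theorem θ_diff {z : E} (hz : z ≠ 0) : DifferentiableAt ℝ θ z := by
  have hn : 0 < ‖z‖ := norm_pos_iff.2 hz
  have h3 : ‖z‖ ^ 3 ≠ 0 := by positivity
  exact (((norm_diff hz).pow 3).inv h3).smul differentiableAt_id

theorem κ_diff {z : E} (hz : z ≠ 0) : DifferentiableAt ℝ κ z := by
  have hn : 0 < ‖z‖ := norm_pos_iff.2 hz
  have h1 : DifferentiableAt ℝ (fun z : E => √‖z‖) z := (norm_diff hz).sqrt hn.ne'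
  refine (((norm_diff hz).mul h1).inv ?_).smul differentiableAt_id
  have : 0 < √‖z‖ := Real.sqrt_pos.2 hn
  change ‖z‖ * √‖z‖ ≠ 0
  positivity

theorem hasFDerivAt_normSq {F : Type*} [NormedAddCommGroup F] [InnerProductSpace ℝ F] (y b : F) :
    HasFDerivAt (fun y : F => ‖y - b‖ ^ 2) ((2 : ℝ) • innerSL ℝ (y - b)) y := by
  have h0 : HasFDerivAt (fun y : F => y - b) (ContinuousLinearMap.id ℝ F) y :=
    (hasFDerivAt_id y).sub_const b
  have h1 := (hasStrictFDerivAt_norm_sq (y - b)).hasFDerivAt.comp y h0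
  rw [ContinuousLinearMap.comp_id, ← Nat.cast_smul_eq_nsmul ℝ] at h1
  exact h1

theorem hasDerivAt_aux (η : ℝ) {n : ℝ} (hn : 0 < n) :
    HasDerivAt (fun s : ℝ => η / √s) (-(η * (2 * n ^ 3)⁻¹)) (n ^ 2) := by
  have hs : n ^ 2 ≠ 0 := by positivity
  have h3 := (Real.hasDerivAt_sqrt hs)
  have h4 := (hasDerivAt_const (n ^ 2) η).div h3 (by
    rw [Real.sqrt_sq hn.le]; exact hn.ne')
  rw [Real.sqrt_sq hn.le] at h4
  have e : (0 * n - η * (1 / (2 * n))) / n ^ 2 = -(η * (2 * n ^ 3)⁻¹) := by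
    field_simp
    ring
  rw [e] at h4
  exact h4

theorem hasFDerivAt_inv_dist' {F : Type*} [NormedAddCommGroup F] [InnerProductSpace ℝ F] (η : ℝ)
    {y b : F} (hy : y ≠ b) :
    HasFDerivAt (fun y => η / dist y b) (-(η * (‖y - b‖ ^ 3)⁻¹) • innerSL ℝ (y - b)) y := by
  have hz : y - b ≠ 0 := sub_ne_zero.2 hy
  have hn : 0 < ‖y - b‖ := norm_pos_iff.2 hz
  have h5 := (hasDerivAt_aux η hn).comp_hasFDerivAt y (hasFDerivAt_normSq y b)
  have h6 : (fun y => η / dist y b) = (fun s : ℝ => η / √s) ∘ (fun y : F => ‖y - b‖ ^ 2) := by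
    funext y
    simp only [Function.comp]
    rw [Real.sqrt_sq (norm_nonneg _), dist_eq_norm]
  have h7 : -(η * (2 * ‖y - b‖ ^ 3)⁻¹) • ((2 : ℝ) • innerSL ℝ (y - b)) =
      -(η * (‖y - b‖ ^ 3)⁻¹) • innerSL ℝ (y - b) := by
    rw [smul_smul]
    congr 1
    field_simp
  rw [h6, ← h7]
  exact h5

theorem hasFDerivAt_inv_dist (η : ℝ) {y b : E} (hy : y ≠ b) :
    HasFDerivAt (fun y => η / dist y b) (-(η * (‖y - b‖ ^ 3)⁻¹) • innerSL ℝ (y - b)) y :=
  hasFDerivAt_inv_dist' η hy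

end Sard

open Sard in
theorem sard_last (U : Set E) (hU : IsOpen U) (V : E → ℝ) (hV : ∀ x ∈ U, ContDiffAt ℝ 2 V x)
    (η : ℝ) (hη : η ≠ 0) :
    ∀ᵐ b : E ∂(volume : Measure E), ∀ x ∈ U, x ≠ b →
      fderiv ℝ (fun y => V y + η / dist y b) x = 0 →
      ∀ v, fderiv ℝ (fderiv ℝ (fun y => V y + η / dist y b)) x v = 0 → v = 0 := by
  classical
  let G : E → E := fun x => η⁻¹ • L (fderiv ℝ V x)
  let Ψ : E → E := fun x => x - κ (G x)
  have hVd : ∀ x ∈ U, DifferentiableAt ℝ (fderiv ℝ V) x := fun x hx =>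
    ((hV x hx).fderiv_right (m := 1) (by norm_num)).differentiableAt (by norm_num)
  have hGd : ∀ x ∈ U, DifferentiableAt ℝ G x := fun x hx =>
    (L.differentiableAt.comp x (hVd x hx)).const_smul η⁻¹
  have hΨd : ∀ x ∈ U, G x ≠ 0 → DifferentiableAt ℝ Ψ x := fun x hx hG =>
    differentiableAt_id.sub ((κ_diff hG).comp x (hGd x hx))
  let s : Set E := {x | x ∈ U ∧ G x ≠ 0 ∧ (fderiv ℝ Ψ x).det = 0}
  have hnull : (volume : Measure E) (Ψ '' s) = 0 := by
    refine addHaar_image_eq_zero_of_det_fderivWithin_eq_zero (f' := fun x => fderiv ℝ Ψ x)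
      volume (fun x hx => (hΨd x hx.1 hx.2.1).hasFDerivAt.hasFDerivWithinAt) (fun x hx => hx.2.2)
  have hae : ∀ᵐ b : E ∂(volume : Measure E), b ∉ Ψ '' s := by
    have h0 : {b : E | ¬ b ∉ Ψ '' s} = Ψ '' s := by
      ext b
      simp
    rw [ae_iff, h0]
    exact hnull
  filter_upwards [hae] with b hb x hx hxb hcrit v hv
  have hz : x - b ≠ 0 := sub_ne_zero.2 hxb
  -- the derivative of the potential near `x`
  have hfd : ∀ y ∈ U, y ≠ b → L (fderiv ℝ (fun y => V y + η / dist y b) y) =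
      L (fderiv ℝ V y) - η • θ (y - b) := by
    intro y hy hyb
    have h1 : HasFDerivAt V (fderiv ℝ V y) y :=
      ((hV y hy).differentiableAt (by norm_num)).hasFDerivAt
    have h2 := h1.add (hasFDerivAt_inv_dist η hyb)
    have h3 : fderiv ℝ (fun y => V y + η / dist y b) y =
        fderiv ℝ V y + -(η * (‖y - b‖ ^ 3)⁻¹) • innerSL ℝ (y - b) := h2.fderiv
    rw [h3, map_add, map_smul, L_inner, θ, smul_smul, neg_smul]
    abel
  have hG : G x = θ (x - b) := by
    have h1 := hfd x hx hxb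
    rw [hcrit, map_zero] at h1
    have h2 : L (fderiv ℝ V x) = η • θ (x - b) := by
      rw [← sub_eq_zero, ← h1]
    simp only [G]
    rw [h2, smul_smul, inv_mul_cancel₀ hη, one_smul]
  have hG0 : G x ≠ 0 := by rw [hG]; exact θ_ne hz
  have hΨx : Ψ x = b := by
    simp only [Ψ]
    rw [hG, κ_θ hz]
    abel
  have hdet : (fderiv ℝ Ψ x).det ≠ 0 := by
    intro h0
    exact hb ⟨x, ⟨hx, hG0, h0⟩, hΨx⟩
  -- the second derivative
  have hW : DifferentiableAt ℝ (fderiv ℝ (fun y => V y + η / dist y b)) x := by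
    have h1 : ContDiffAt ℝ 2 (fun y => V y + η / dist y b) x := by
      refine (hV x hx).add (contDiffAt_const.div ?_ (dist_ne_zero.2 hxb))
      exact contDiffAt_id.dist ℝ contDiffAt_const hxb
    exact (h1.fderiv_right (m := 1) (by norm_num)).differentiableAt (by norm_num)
  have hnear : ∀ᶠ y in 𝓝 x, L (fderiv ℝ (fun y => V y + η / dist y b) y) =
      L (fderiv ℝ V y) - η • θ (y - b) := by
    filter_upwards [hU.mem_nhds hx, isOpen_ne.mem_nhds hxb] with y hy hyb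
    exact hfd y hy hyb
  have hθd : HasFDerivAt (fun y => θ (y - b)) (fderiv ℝ θ (x - b)) x := by
    have h0 : HasFDerivAt (fun y : E => y - b) (ContinuousLinearMap.id ℝ E) x :=
      (hasFDerivAt_id x).sub_const b
    have h1 := (θ_diff hz).hasFDerivAt.comp x h0
    rw [ContinuousLinearMap.comp_id] at h1
    exact h1
  have hL1 : HasFDerivAt (fun y => L (fderiv ℝ (fun y => V y + η / dist y b) y))
      (L.comp (fderiv ℝ (fderiv ℝ (fun y => V y + η / dist y b)) x)) x :=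
    L.hasFDerivAt.comp x hW.hasFDerivAt
  have hLV : HasFDerivAt (fun y => L (fderiv ℝ V y)) (L.comp (fderiv ℝ (fderiv ℝ V) x)) x :=
    L.hasFDerivAt.comp x (hVd x hx).hasFDerivAt
  have hL2 : HasFDerivAt (fun y => L (fderiv ℝ V y) - η • θ (y - b))
      (L.comp (fderiv ℝ (fderiv ℝ V) x) - η • fderiv ℝ θ (x - b)) x :=
    hLV.sub (hθd.const_smul η)
  have hEq := (hL1.congr_of_eventuallyEq
    (hnear.mono fun y hy => hy.symm)).unique hL2
  have hv2 : L (fderiv ℝ (fderiv ℝ V) x v) = η • fderiv ℝ θ (x - b) v := by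
    have h1 := DFunLike.congr_fun hEq v
    simp only [ContinuousLinearMap.comp_apply, sub_apply,
      smul_apply, hv, map_zero] at h1
    rw [← sub_eq_zero, ← h1]
  have hDG : fderiv ℝ G x v = fderiv ℝ θ (x - b) v := by
    have h1 : HasFDerivAt G (η⁻¹ • L.comp (fderiv ℝ (fderiv ℝ V) x)) x := hLV.const_smul η⁻¹
    rw [h1.fderiv, smul_apply, ContinuousLinearMap.comp_apply, hv2, smul_smul,
      inv_mul_cancel₀ hη, one_smul]
  have hinv : fderiv ℝ κ (θ (x - b)) (fderiv ℝ θ (x - b) v) = v := by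
    have h1 : HasFDerivAt (fun y => κ (θ y)) ((fderiv ℝ κ (θ (x - b))).comp
        (fderiv ℝ θ (x - b))) (x - b) :=
      (κ_diff (θ_ne hz)).hasFDerivAt.comp _ (θ_diff hz).hasFDerivAt
    have h2 : HasFDerivAt (fun y => κ (θ y)) (ContinuousLinearMap.id ℝ E) (x - b) := by
      refine (hasFDerivAt_id (x - b)).congr_of_eventuallyEq ?_
      filter_upwards [isOpen_ne.mem_nhds hz] with y hy
      exact κ_θ hy
    have h3 := DFunLike.congr_fun (h1.unique h2) v
    simpa using h3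
  have hΨv : fderiv ℝ Ψ x v = 0 := by
    have h1 : HasFDerivAt Ψ (ContinuousLinearMap.id ℝ E -
        (fderiv ℝ κ (G x)).comp (fderiv ℝ G x)) x :=
      (hasFDerivAt_id x).sub ((κ_diff hG0).hasFDerivAt.comp x (hGd x hx).hasFDerivAt)
    rw [h1.fderiv]
    simp only [sub_apply, ContinuousLinearMap.comp_apply,
      ContinuousLinearMap.id_apply]
    rw [hDG, hG, hinv, sub_self]
  by_contra hv0
  apply hdet
  have hker : LinearMap.ker ((fderiv ℝ Ψ x : E →L[ℝ] E) : E →ₗ[ℝ] E) ≠ ⊥ := by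
    intro h0
    have : v ∈ LinearMap.ker ((fderiv ℝ Ψ x : E →L[ℝ] E) : E →ₗ[ℝ] E) := by
      rw [LinearMap.mem_ker]
      exact hΨv
    rw [h0, Submodule.mem_bot] at this
    exact hv0 this
  exact LinearMap.det_eq_zero_iff_ker_ne_bot.2 hker

end PC992
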