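import Mathlib
import Pool.Agent.Work.MP_992d6e_an.Chain
import Pool.Agent.Work.MP_992d6e_an.FD
import Pool.Agent.Work.MP_992d6e_an.Sard

/-!
MP_992d6e_an, cubic lower bound: realisation by point charges and assembly.
-/

namespace PC992

open Filter Topology Polynomial N62f3cee0 MeasureTheory
open scoped Gradient

noncomputable section

lemma inv_norm_contDiffAt {x : E} (hx : x ≠ 0) : ContDiffAt ℝ 2 (fun y : E => ‖y‖⁻¹) x :=
  (contDiffAt_norm ℝ hx).inv (norm_ne_zero_iff.mpr hx)

lemma inv_dist_contDiffAt {x b : E} (hx : x ≠ b) : ContDiffAt ℝ 2 (fun y : E => ‖y - b‖⁻¹) x := by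
  have h : ContDiffAt ℝ 2 (fun y : E => ‖y‖⁻¹) (x - b) := inv_norm_contDiffAt (sub_ne_zero.mpr hx)
  exact ContDiffAt.comp (g := fun y : E => ‖y‖⁻¹) (f := fun y : E => y - b) x h
    (contDiffAt_id.sub contDiffAt_const)

lemma potential_contDiffAt {n : ℕ} (q : Fin n → ℝ) (a : Fin n → E) {x : E}
    (hx : x ∉ Set.range a) : ContDiffAt ℝ 2 (potential q a) x := by
  unfold potential
  refine ContDiffAt.sum fun j _ => ?_
  have hxj : x ≠ a j := fun h => hx ⟨j, h.symm⟩
  have := (contDiffAt_const (c := q j)).mul (inv_dist_contDiffAt hxj)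
  simpa only [dist_eq_norm, div_eq_mul_inv] using this

lemma gradient_eq_zero_iff {V : E → ℝ} {x : E} : ∇ V x = 0 ↔ fderiv ℝ V x = 0 := by
  unfold gradient
  exact (LinearIsometryEquiv.map_eq_zero_iff _)

/-- adding one small charge at a generic place and perturbing all strengths -/
theorem last_step {n : ℕ} (q : Fin n → ℝ) (a : Fin n → E) (ha : Function.Injective a)
    (S : Finset E) (hS : ∀ x ∈ S, x ∈ NDC (potential q a) ∧ x ∉ Set.range a) :
    ∃ (q' : Fin (n + 1) → ℝ) (a' : Fin (n + 1) → E), Function.Injective a' ∧ (∀ j, q' j ≠ 0) ∧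
      (∀ x ∈ equilibria q' a', HasNondegenerateHessianAt (potential q' a') x) ∧
      (S.card : ℕ∞) ≤ (equilibria q' a').encard := by
  classical
  -- a base point for the last charge
  obtain ⟨b0, hb0⟩ : ∃ b0 : E, b0 ∉ (S ∪ Finset.univ.image a : Finset E) :=
    Infinite.exists_notMem_finset _
  rw [Finset.mem_union, not_or] at hb0
  have hb0S : ∀ x ∈ S, x ≠ b0 := by
    rintro x hx rfl
    exact hb0.1 hx
  have hb0a : b0 ∉ Set.range a := by
    rintro ⟨j, rfl⟩
    exact hb0.2 (Finset.mem_image_of_mem a (Finset.mem_univ j))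
  obtain ⟨r, hr, hrS⟩ : ∃ r : ℝ, 0 < r ∧ ∀ x ∈ S, r < dist x b0 := by
    obtain ⟨δ, hδ, h⟩ := exists_small (S.image (fun x => x - b0)) (by
      intro x hx
      obtain ⟨y, hy, rfl⟩ := Finset.mem_image.mp hx
      exact sub_ne_zero.mpr (hb0S y hy))
    refine ⟨δ, hδ, fun x hx => ?_⟩
    rw [dist_eq_norm]
    exact h _ (Finset.mem_image_of_mem _ hx)
  have hrange : IsClosed (Set.range a) := (Set.finite_range a).isClosed
  let Ω : Set E := {x | x ∉ Set.range a ∧ r < dist x b0}
  have hΩ : IsOpen Ω := hrange.isOpen_compl.inter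
    (isOpen_lt continuous_const (continuous_id.dist continuous_const))
  let F : ℝ × E → E → ℝ := fun p x =>
    (potential q a x + p.1 * ∑ j, ‖x - a j‖⁻¹) + p.1 * ‖x - p.2‖⁻¹
  let l : Filter (ℝ × E) := 𝓝[>] (0 : ℝ) ×ˢ 𝓝 b0
  have hη : Tendsto (fun p : ℝ × E => p.1) l (𝓝 0) :=
    tendsto_fst.mono_right nhdsWithin_le_nhds
  have hF : ∀ x ∈ S, x ∈ NDC (potential q a) ∧ TC2 l F (potential q a) x ∧ Ω ∈ 𝓝 x := by
    intro x hx
    obtain ⟨h1, h2⟩ := hS x hx
    refine ⟨h1, ?_, hΩ.mem_nhds ⟨h2, hrS x hx⟩⟩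
    have t1 : TC2 l (fun _ => potential q a) (potential q a) x :=
      TC2.const (potential_contDiffAt q a h2)
    have t2 : TC2 l (fun _ x => ∑ j, ‖x - a j‖⁻¹) (fun x => ∑ j, ‖x - a j‖⁻¹) x :=
      TC2.const (ContDiffAt.sum fun j _ =>
        inv_dist_contDiffAt (fun h => h2 ⟨j, h.symm⟩))
    have t3 : TC2 l (fun (p : ℝ × E) x => ‖x - p.2‖⁻¹) (fun x => ‖x - b0‖⁻¹) x :=
      TC2.translate (f := fun y => ‖y‖⁻¹) tendsto_snd
        (inv_norm_contDiffAt (sub_ne_zero.mpr (hb0S x hx)))
    have t4 := (t1.add (t2.mul hη)).add (t3.mul hη)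
    have t5 : (fun x => potential q a x + 0 * ∑ j, ‖x - a j‖⁻¹ + 0 * ‖x - b0‖⁻¹) =
        potential q a := by
      funext y
      ring
    rw [t5] at t4
    exact t4
  have ev1 := (persist_finset S Ω hF).curry
  have ev2 : ∀ᶠ η : ℝ in 𝓝[>] (0 : ℝ), 0 < η := eventually_mem_nhdsWithin
  have ev3 : ∀ᶠ η : ℝ in 𝓝[>] (0 : ℝ), ∀ j, q j + η ≠ 0 := by
    rw [eventually_all]
    intro j
    by_cases hj : q j = 0
    · filter_upwards [ev2] with η h
      rw [hj, zero_add]
      exact h.ne'
    · have : ∀ᶠ η : ℝ in 𝓝 (0 : ℝ), q j + η ≠ 0 := by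
        have hc : ContinuousAt (fun η : ℝ => q j + η) 0 := by fun_prop
        exact hc.eventually_ne (by simpa using hj)
      exact mem_nhdsWithin_of_mem_nhds this
  obtain ⟨η, hev, hη0, hqη⟩ := (ev1.and (ev2.and ev3)).exists
  let V1 : E → ℝ := fun x => potential q a x + η * ∑ j, ‖x - a j‖⁻¹
  have hV1 : ∀ x ∈ (Set.range a)ᶜ, ContDiffAt ℝ 2 V1 x := by
    intro x hx
    exact (potential_contDiffAt q a hx).add (contDiffAt_const.mul (ContDiffAt.sum fun j _ =>
        inv_dist_contDiffAt (fun h => hx ⟨j, h.symm⟩)))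
  have hsard := sard_last (Set.range a)ᶜ hrange.isOpen_compl V1 hV1 η hη0.ne'
  have hdense := MeasureTheory.Measure.dense_of_ae hsard
  have ev4 : ∀ᶠ b : E in 𝓝 b0, b ∉ Set.range a ∧ dist b b0 < r :=
    ((hrange.isOpen_compl.inter (isOpen_lt (continuous_id.dist continuous_const)
      continuous_const)).mem_nhds ⟨hb0a, by simpa using hr⟩)
  obtain ⟨b, hbs, hbe, hba, hbr⟩ :
      ∃ b : E, (∀ x ∈ (Set.range a)ᶜ, x ≠ b →
        fderiv ℝ (fun y => V1 y + η / dist y b) x = 0 →
        ∀ v, fderiv ℝ (fderiv ℝ (fun y => V1 y + η / dist y b)) x v = 0 → v = 0) ∧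
        (∃ T : Finset E, T.card = S.card ∧ ∀ x ∈ T, x ∈ Ω ∧ x ∈ NDC (F (η, b))) ∧
        b ∉ Set.range a ∧ dist b b0 < r := by
    have hmem := hev.and ev4
    obtain ⟨b, hb1, hb2⟩ := hdense.inter_nhds_nonempty hmem
    exact ⟨b, hb1, hb2⟩
  obtain ⟨T, hTc, hT⟩ := hbe
  let q' : Fin (n + 1) → ℝ := Fin.snoc (fun j => q j + η) η
  let a' : Fin (n + 1) → E := Fin.snoc a b
  have hpot : potential q' a' = fun y => V1 y + η / dist y b := by
    funext y
    simp only [potential, V1, q', a', Fin.sum_univ_castSucc, Fin.snoc_castSucc, Fin.snoc_last]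
    congr 1
    rw [Finset.mul_sum, ← Finset.sum_add_distrib]
    apply Finset.sum_congr rfl
    intro j _
    rw [dist_eq_norm]
    ring
  have hpotF : potential q' a' = F (η, b) := by
    rw [hpot]
    funext y
    simp only [F, V1]
    rw [dist_eq_norm]
    ring
  have hrange' : ∀ x : E, x ∉ Set.range a' ↔ x ∉ Set.range a ∧ x ≠ b := by
    intro x
    constructor
    · intro h
      refine ⟨?_, ?_⟩
      · rintro ⟨j, rfl⟩
        exact h ⟨Fin.castSucc j, by simp [a']⟩
      · rintro rfl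
        exact h ⟨Fin.last n, by simp [a']⟩
    · rintro ⟨h1, h2⟩ ⟨j, hj⟩
      induction j using Fin.lastCases with
      | last => exact h2 (by simpa [a'] using hj.symm)
      | cast j => exact h1 ⟨j, by simpa [a'] using hj⟩
  refine ⟨q', a', ?_, ?_, ?_, ?_⟩
  · intro i j hij
    induction i using Fin.lastCases with
    | last =>
      induction j using Fin.lastCases with
      | last => rfl
      | cast j =>
        exfalso
        apply hba
        exact ⟨j, by simpa [a'] using hij.symm⟩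
    | cast i =>
      induction j using Fin.lastCases with
      | last =>
        exfalso
        apply hba
        exact ⟨i, by simpa [a'] using hij⟩
      | cast j =>
        have : a i = a j := by simpa [a'] using hij
        rw [ha this]
  · intro j
    induction j using Fin.lastCases with
    | last => simpa [q'] using hη0.ne'
    | cast j => simpa [q'] using hqη j
  · rintro x ⟨hx1, hx2⟩
    rw [hrange'] at hx1
    rw [gradient_eq_zero_iff, hpot] at hx2
    intro v hv
    by_contra hcon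
    push Not at hcon
    apply hv
    apply hbs x hx1.1 hx1.2 hx2 v
    ext w
    have := hcon w
    rw [hpot, iteratedFDeriv_two_apply] at this
    simpa using this
  · rw [← hTc, ← Set.encard_coe_eq_coe_finsetCard]
    apply Set.encard_le_encard
    intro x hx
    obtain ⟨⟨hx1, hx2⟩, hx3⟩ := hT x hx
    refine ⟨?_, ?_⟩
    · rw [hrange']
      refine ⟨hx1, ?_⟩
      rintro rfl
      linarith
    · rw [gradient_eq_zero_iff, hpotF]
      exact hx3.2.1

/-- charges with prescribed strengths on a finite set, enumerated by `Fin n` -/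
lemma enumerate (T : Finset E) (n : ℕ) (hn : T.card = n) (μ : E → ℝ) :
    ∃ (q : Fin n → ℝ) (a : Fin n → E), Function.Injective a ∧ Set.range a = T ∧
      potential q a = fun x => ∑ t ∈ T, μ t * ‖x - t‖⁻¹ := by
  subst hn
  let eqv := T.equivFin.symm
  refine ⟨fun j => μ (eqv j), fun j => (eqv j : E), ?_, ?_, ?_⟩
  · intro i j hij
    exact eqv.injective (Subtype.ext hij)
  · ext x
    constructor
    · rintro ⟨j, rfl⟩
      exact (eqv j).2
    · intro hx
      exact ⟨eqv.symm ⟨x, hx⟩, by simp⟩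
  · funext x
    unfold potential
    rw [← Finset.sum_coe_sort T (fun t => μ t * ‖x - t‖⁻¹), ← Equiv.sum_comp eqv]
    apply Finset.sum_congr rfl
    intro j _
    rw [dist_eq_norm, div_eq_mul_inv]

/-- realisation of the multi-scale sum by `2M+2` or more charges (strengths possibly zero) -/
theorem realise (M n : ℕ) (hn : 2 * (M + 1) ≤ n) :
    ∃ (q : Fin n → ℝ) (a : Fin n → E), Function.Injective a ∧ ∃ S : Finset E, NN M ≤ S.card ∧
      ∀ x ∈ S, x ∈ NDC (potential q a) ∧ x ∉ Set.range a := by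
  classical
  obtain ⟨c, -, S, hSc, hS⟩ := chain M
  obtain ⟨δ, hδ, hδS⟩ := exists_small S (fun x hx => (hS x hx).1)
  have hax : ∀ k, ‖ax k‖ = 1 := by
    intro k
    have h := (frame_ax k).he
    rw [real_inner_self_eq_norm_sq] at h
    nlinarith [norm_nonneg (ax k)]
  let F : ℝ → E → ℝ := fun h x => ∑ k ∈ Finset.range (M + 1), c k * ((h ^ k)⁻¹ *
      ∑ j ∈ Finset.range (k + 1), (-1) ^ (k - j) * (k.choose j : ℝ) *
        ‖x + (((j : ℝ) + 1) * h) • ax k‖⁻¹)
  have hF : ∀ x ∈ S, x ∈ NDC (H c M) ∧ TC2 (𝓝[>] (0 : ℝ)) F (H c M) x ∧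
      {x : E | δ < ‖x‖} ∈ 𝓝 x := by
    intro x hx
    refine ⟨(hS x hx).2, ?_, (isOpen_lt continuous_const continuous_norm).mem_nhds (hδS x hx)⟩
    exact TC2.sum _ fun k _ => TC2.mul tendsto_const_nhds (fd_conv k (hax k) (hS x hx).1)
  have e1 := persist_finset S {x : E | δ < ‖x‖} hF
  have e2 : ∀ᶠ h : ℝ in 𝓝[>] (0 : ℝ), 0 < h := eventually_mem_nhdsWithin
  have e3 : ∀ᶠ h : ℝ in 𝓝[>] (0 : ℝ), h < δ / (M + 1) :=
    mem_nhdsWithin_of_mem_nhds (Iio_mem_nhds (by positivity))
  obtain ⟨h, ⟨T, hTc, hT⟩, hh, hhδ⟩ := (e1.and (e2.and e3)).exists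
  -- positions
  let pos : ℕ → ℕ → E := fun k j => -((((j : ℝ) + 1) * h) • ax k)
  let A : Finset E := (Finset.range (M + 1)).image (pos 0) ∪ (Finset.range (M + 1)).image (pos 1)
  have hposA : ∀ k ≤ M, ∀ j ≤ k, pos k j ∈ A := by
    intro k hk j hj
    have hjM : j ∈ Finset.range (M + 1) := Finset.mem_range.mpr (by omega)
    rcases Nat.even_or_odd k with he | ho
    · apply Finset.mem_union_left
      refine Finset.mem_image.mpr ⟨j, hjM, ?_⟩
      simp [pos, ax, he]
    · apply Finset.mem_union_right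
      refine Finset.mem_image.mpr ⟨j, hjM, ?_⟩
      simp [pos, ax, Nat.not_even_iff_odd.mpr ho]
  have hAcard : A.card ≤ n := by
    refine le_trans (Finset.card_union_le _ _) ?_
    have h1 := Finset.card_image_le (s := Finset.range (M + 1)) (f := pos 0)
    have h2 := Finset.card_image_le (s := Finset.range (M + 1)) (f := pos 1)
    rw [Finset.card_range] at h1 h2
    omega
  have hAnorm : ∀ t ∈ A, ‖t‖ ≤ δ := by
    intro t ht
    have key : ∀ k, ∀ j ∈ Finset.range (M + 1), ‖pos k j‖ ≤ δ := by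
      intro k j hj
      rw [Finset.mem_range] at hj
      have hj' : (j : ℝ) + 1 ≤ M + 1 := by
        have : j ≤ M := by omega
        have : (j : ℝ) ≤ M := by exact_mod_cast this
        linarith
      simp only [pos]
      rw [norm_neg, norm_smul, hax, mul_one, Real.norm_of_nonneg (by positivity)]
      calc ((j : ℝ) + 1) * h ≤ (M + 1) * h := mul_le_mul_of_nonneg_right hj' hh.le
        _ ≤ (M + 1) * (δ / (M + 1)) := mul_le_mul_of_nonneg_left hhδ.le (by positivity)
        _ = δ := by field_simp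
    rcases Finset.mem_union.mp ht with h1 | h1
    · obtain ⟨j, hj, rfl⟩ := Finset.mem_image.mp h1
      exact key 0 j hj
    · obtain ⟨j, hj, rfl⟩ := Finset.mem_image.mp h1
      exact key 1 j hj
  have hTA : ∀ x ∈ T, x ∉ A := by
    intro x hx hxA
    have h1 := (hT x hx).1
    have h2 := hAnorm x hxA
    simp only [Set.mem_setOf_eq] at h1
    linarith
  -- padding
  obtain ⟨B, hAB, hBc⟩ := Infinite.exists_superset_card_eq (A ∪ T) (n + T.card) (by
    rw [Finset.card_union_of_disjoint (Finset.disjoint_left.mpr fun x h1 h2 => hTA x h2 h1)]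
    omega)
  let D : Finset E := B \ T
  have hDc : D.card = n := by
    have : T ⊆ B := fun x hx => hAB (Finset.mem_union_right _ hx)
    rw [Finset.card_sdiff_of_subset this, hBc]
    omega
  have hAD : A ⊆ D := by
    intro x hx
    rw [Finset.mem_sdiff]
    exact ⟨hAB (Finset.mem_union_left _ hx), fun h => hTA x h hx⟩
  let μ : E → ℝ := fun t => ∑ k ∈ Finset.range (M + 1), ∑ j ∈ Finset.range (k + 1),
    if pos k j = t then c k * ((h ^ k)⁻¹ * ((-1) ^ (k - j) * (k.choose j : ℝ))) else 0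
  obtain ⟨q, a, hinj, hra, hpot⟩ := enumerate D n hDc μ
  have hpotF : potential q a = F h := by
    rw [hpot]
    funext x
    simp only [μ, F]
    calc ∑ t ∈ D, (∑ k ∈ Finset.range (M + 1), ∑ j ∈ Finset.range (k + 1),
          if pos k j = t then c k * ((h ^ k)⁻¹ * ((-1) ^ (k - j) * (k.choose j : ℝ))) else 0) *
            ‖x - t‖⁻¹
        = ∑ k ∈ Finset.range (M + 1), ∑ j ∈ Finset.range (k + 1), ∑ t ∈ D,
          (if pos k j = t then c k * ((h ^ k)⁻¹ * ((-1) ^ (k - j) * (k.choose j : ℝ))) else 0) *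
            ‖x - t‖⁻¹ := by
          simp only [Finset.sum_mul]
          rw [Finset.sum_comm]
          apply Finset.sum_congr rfl
          intro k _
          rw [Finset.sum_comm]
      _ = ∑ k ∈ Finset.range (M + 1), ∑ j ∈ Finset.range (k + 1),
          (c k * ((h ^ k)⁻¹ * ((-1) ^ (k - j) * (k.choose j : ℝ)))) * ‖x - pos k j‖⁻¹ := by
          apply Finset.sum_congr rfl
          intro k hk
          apply Finset.sum_congr rfl
          intro j hj
          rw [Finset.mem_range] at hk hj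
          have hmem : pos k j ∈ D := hAD (hposA k (by omega) j (by omega))
          rw [Finset.sum_eq_single (pos k j)]
          · simp
          · intro t _ ht
            rw [if_neg (Ne.symm ht), zero_mul]
          · intro hno
            exact absurd hmem hno
      _ = _ := by
          apply Finset.sum_congr rfl
          intro k _
          rw [Finset.mul_sum, Finset.mul_sum]
          apply Finset.sum_congr rfl
          intro j _
          simp only [pos, sub_neg_eq_add]
          ring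
  refine ⟨q, a, hinj, T, by omega, fun x hx => ⟨?_, ?_⟩⟩
  · rw [hpotF]
    exact (hT x hx).2
  · rw [hra]
    intro h1
    have := Finset.mem_coe.mp h1
    rw [Finset.mem_sdiff] at this
    exact this.2 hx

theorem cubic (n : ℕ) (hn : 1 ≤ n) :
    ∃ (q : Fin n → ℝ) (a : Fin n → E), Function.Injective a ∧ (∀ j, q j ≠ 0) ∧
      (∀ x ∈ equilibria q a, HasNondegenerateHessianAt (potential q a) x) ∧
      ((2 * (n - 16) ^ 3 : ℕ) : ℕ∞) ≤ 243 * (equilibria q a).encard := by
  obtain ⟨n, rfl⟩ : ∃ m, n = m + 1 := ⟨n - 1, by omega⟩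
  rcases Nat.lt_or_ge n 16 with hlt | hge
  · -- few charges
    obtain ⟨a, ha⟩ : ∃ a : Fin n → E, Function.Injective a := by
      exact ⟨fun j => EuclideanSpace.single 0 (j : ℝ), fun i j h => by
        have := congrArg (fun v : E => v 0) h
        simp at this
        exact Fin.ext (by exact_mod_cast this)⟩
    obtain ⟨q', a', h1, h2, h3, -⟩ := last_step (fun _ => 0) a ha ∅ (by simp)
    refine ⟨q', a', h1, h2, h3, ?_⟩
    have : 2 * (n + 1 - 16) ^ 3 = 0 := by
      have : n + 1 - 16 = 0 := by omega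
      rw [this]
      norm_num
    rw [this]
    simp
  · obtain ⟨M, hM1, hM2⟩ : ∃ M, 2 * (M + 1) ≤ n ∧ n ≤ 2 * M + 3 := ⟨(n - 2) / 2, by omega, by omega⟩
    obtain ⟨q, a, ha, S, hSc, hS⟩ := realise M n hM1
    obtain ⟨q', a', h1, h2, h3, h4⟩ := last_step q a ha S hS
    refine ⟨q', a', h1, h2, h3, ?_⟩
    have hM6 : 6 ≤ M := by omega
    have h5 := NN_lower M hM6
    have h6 : 2 * (n + 1 - 16) ^ 3 ≤ 243 * S.card := by
      have e1 : n + 1 - 16 ≤ 2 * (M - 6) := by omega
      have e2 : (n + 1 - 16) ^ 3 ≤ (2 * (M - 6)) ^ 3 := Nat.pow_le_pow_left e1 3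
      have e3 : (2 * (M - 6)) ^ 3 = 8 * (M - 6) ^ 3 := by ring
      omega
    calc ((2 * (n + 1 - 16) ^ 3 : ℕ) : ℕ∞) ≤ ((243 * S.card : ℕ) : ℕ∞) := by exact_mod_cast h6
      _ = 243 * (S.card : ℕ∞) := by push_cast; rfl
      _ ≤ 243 * (equilibria q' a').encard := by gcongr

end

end PC992
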